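import Pool.Agent.Det.Defs

/-!
# Basic lemmas: prefixes, plays, forced positions
-/

namespace Pool.Agent.Det

universe u

namespace GTree

variable {T : GTree.{u}}

theorem len_iter (j : ℕ) (p : T.Pos) : T.len ((T.par)^[j] p) = T.len p - j := by
  induction j generalizing p with
  | zero => simp
  | succ j ih =>
    rw [Function.iterate_succ_apply, ih, T.len_par]
    omega

theorem len_pre (m : ℕ) (p : T.Pos) : T.len (T.pre m p) = min m (T.len p) := by
  unfold pre
  rw [len_iter]
  omega

theorem len_pre_of_le {m : ℕ} {p : T.Pos} (h : m ≤ T.len p) : T.len (T.pre m p) = m := by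
  rw [len_pre]; omega

theorem pre_of_ge {m : ℕ} {p : T.Pos} (h : T.len p ≤ m) : T.pre m p = p := by
  unfold pre
  have : T.len p - m = 0 := by omega
  rw [this]; rfl

@[simp] theorem pre_len (p : T.Pos) : T.pre (T.len p) p = p := pre_of_ge le_rfl

theorem pre_pre {m m' : ℕ} (h : m ≤ m') (p : T.Pos) : T.pre m (T.pre m' p) = T.pre m p := by
  unfold pre
  rw [len_iter, ← Function.iterate_add_apply]
  congr 1
  omega

theorem par_pre {m : ℕ} {p : T.Pos} (h : m < T.len p) : T.par (T.pre (m + 1) p) = T.pre m p := by
  unfold pre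
  rw [← Function.iterate_succ_apply' (T.par)]
  congr 1
  omega

theorem pre_par {m : ℕ} {p : T.Pos} (h : m < T.len p) : T.pre m (T.par p) = T.pre m p := by
  unfold pre
  rw [T.len_par, ← Function.iterate_succ_apply (T.par)]
  congr 1
  omega

theorem pre_pred {p : T.Pos} (h : 0 < T.len p) : T.pre (T.len p - 1) p = T.par p := by
  unfold pre
  have : T.len p - (T.len p - 1) = 1 := by omega
  rw [this]; rfl

theorem Child.par_eq {p q : T.Pos} (h : T.Child p q) : T.par q = p := h.1
theorem Child.len_eq {p q : T.Pos} (h : T.Child p q) : T.len q = T.len p + 1 := h.2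

theorem Child.pre_eq {p q : T.Pos} (h : T.Child p q) {m : ℕ} (hm : m ≤ T.len p) :
    T.pre m q = T.pre m p := by
  rw [← h.1, pre_par (by rw [h.2]; omega)]

theorem child_of_par {p q : T.Pos} (h : T.par q = p) (hq : 0 < T.len q) : T.Child p q := by
  refine ⟨h, ?_⟩
  rw [← h, T.len_par]; omega

/-- the prefixes of a position form a chain of children. -/
theorem child_pre {m : ℕ} {p : T.Pos} (h : m < T.len p) : T.Child (T.pre m p) (T.pre (m + 1) p) := by
  refine ⟨par_pre h, ?_⟩
  rw [len_pre_of_le (by omega), len_pre_of_le (by omega)]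

theorem Play.child (x : T.Play) (n : ℕ) : T.Child (x.pos n) (x.pos (n + 1)) :=
  ⟨x.par_pos n, by rw [x.len_pos, x.len_pos]⟩

theorem Play.pre_pos (x : T.Play) {m n : ℕ} (h : m ≤ n) : T.pre m (x.pos n) = x.pos m := by
  induction n with
  | zero =>
    have : m = 0 := by omega
    subst this
    exact pre_of_ge (by rw [x.len_pos])
  | succ n ih =>
    rcases Nat.lt_or_ge n m with h1 | h1
    · have : m = n + 1 := by omega
      subst this
      exact pre_of_ge (by rw [x.len_pos])
    · rw [(x.child n).pre_eq (by rw [x.len_pos]; exact h1)]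
      exact ih h1

theorem Play.pos_eq_of_pre {x : T.Play} {p : T.Pos} {n m : ℕ} (h : x.pos n = p) (hm : m ≤ n) :
    x.pos m = T.pre m p := by
  rw [← h, x.pre_pos hm]

theorem Play.len_pre_pos (x : T.Play) {m n : ℕ} (h : x.pos n = x.pos m) : n = m := by
  have := congrArg T.len h
  rwa [x.len_pos, x.len_pos] at this

/-- a default child -/
noncomputable def dflt (T : GTree.{u}) (p : T.Pos) : T.Pos := (T.exists_child p).choose

theorem dflt_child (T : GTree.{u}) (p : T.Pos) : T.Child p (T.dflt p) :=
  (T.exists_child p).choose_spec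

/-- the default strategy -/
noncomputable def Strat.dflt (T : GTree.{u}) : T.Strat where
  move := T.dflt
  child := T.dflt_child

noncomputable instance : Inhabited T.Strat := ⟨Strat.dflt T⟩

/-- a strategy from a partial rule: use r p if it is a child of p, else the default child. -/
noncomputable def Strat.of (r : T.Pos → T.Pos) : T.Strat where
  move p := by classical exact if T.Child p (r p) then r p else T.dflt p
  child p := by
    classical
    by_cases h : T.Child p (r p)
    · simp only [h, if_true]
    · simp only [h, if_false]; exact T.dflt_child p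

theorem Strat.of_move {r : T.Pos → T.Pos} {p : T.Pos} (h : T.Child p (r p)) :
    (Strat.of r).move p = r p := by
  simp only [Strat.of, h, if_true]

/-! ## Forced positions -/

theorem win_of_mem {b : Bool} {U : Set T.Pos} {p : T.Pos} (h : p ∈ U) : T.Win b U p := by
  refine ⟨Strat.dflt T, fun x hx _ => ⟨T.len p, le_rfl, ?_⟩⟩
  rw [hx]; exact h

theorem win_of_child {b : Bool} {U : Set T.Pos} {p q : T.Pos} (hb : Turn b (T.len p))
    (hq : T.Child p q) (h : T.Win b U q) : T.Win b U p := by
  classical
  obtain ⟨s, hs⟩ := h
  refine ⟨Strat.of (fun v => if v = p then q else s.move v), fun x hx hf => ?_⟩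
  have hxq : x.pos (T.len q) = q := by
    rw [hq.len_eq, hf _ le_rfl hb, hx, Strat.of_move] <;> simp [hq]
  have hfq : FollowsFrom (T.len q) b s x := by
    intro n hn ht
    rw [hf n (by have := hq.len_eq; omega) ht]
    have hne : x.pos n ≠ p := by
      intro h
      have := congrArg T.len h
      rw [x.len_pos] at this
      have := hq.len_eq
      omega
    rw [Strat.of_move] <;> simp [hne, s.child]
  obtain ⟨n, hn, hU⟩ := hs x hxq hfq
  exact ⟨n, by have := hq.len_eq; omega, hU⟩

theorem win_of_children {b : Bool} {U : Set T.Pos} {p : T.Pos} 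
    (h : ∀ q, T.Child p q → T.Win b U q) : T.Win b U p := by
  classical
  choose s hs using h
  let s' : T.Strat := Strat.of (fun v =>
    if h : T.Child p (T.pre (T.len p + 1) v) then (s _ h).move v else T.dflt v)
  refine ⟨s', fun x hx hf => ?_⟩
  have hc : T.Child p (x.pos (T.len p + 1)) := by
    have := x.child (T.len p)
    rwa [hx] at this
  have hlen : T.len (x.pos (T.len p + 1)) = T.len p + 1 := x.len_pos _
  obtain ⟨n, hn, hU⟩ := hs _ hc x (by rw [hlen]) (by
    intro n hn ht
    rw [hlen] at hn
    rw [hf n (by omega) ht]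
    have h1 : T.pre (T.len p + 1) (x.pos n) = x.pos (T.len p + 1) := x.pre_pos hn
    have h2 : T.Child p (T.pre (T.len p + 1) (x.pos n)) := by rw [h1]; exact hc
    have h3 : (s _ h2).move (x.pos n) = (s _ hc).move (x.pos n) := by
      congr 2
    have h4 : (if h : T.Child p (T.pre (T.len p + 1) (x.pos n)) then (s _ h).move (x.pos n)
        else T.dflt (x.pos n)) = (s _ hc).move (x.pos n) := by
      rw [dif_pos h2, h3]
    rw [← h4]
    refine Strat.of_move ?_
    rw [h4]
    exact (s _ hc).child _)
  exact ⟨n, by omega, hU⟩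

/-- the move of a winning strategy -/
noncomputable def winStrat {b : Bool} {U : Set T.Pos} {p : T.Pos} (h : T.Win b U p) : T.Strat :=
  h.choose

theorem winStrat_spec {b : Bool} {U : Set T.Pos} {p : T.Pos} (h : T.Win b U p) (x : T.Play)
    (hx : x.pos (T.len p) = p) (hf : FollowsFrom (T.len p) b (winStrat h) x) :
    ∃ n, T.len p ≤ n ∧ x.pos n ∈ U :=
  h.choose_spec x hx hf

/-- At a position which is not forced, all children are not forced if b is to move. -/
theorem not_win_child {b : Bool} {U : Set T.Pos} {p q : T.Pos} (h : ¬ T.Win b U p)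
    (hb : Turn b (T.len p)) (hq : T.Child p q) : ¬ T.Win b U q :=
  fun h' => h (win_of_child hb hq h')

/-- At a position which is not forced, some child is not forced. -/
theorem exists_not_win_child {b : Bool} {U : Set T.Pos} {p : T.Pos} (h : ¬ T.Win b U p) :
    ∃ q, T.Child p q ∧ ¬ T.Win b U q := by
  by_contra hc
  push Not at hc
  exact h (win_of_children hc)

end GTree

end Pool.Agent.Det
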