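import Pool.Agent.Det.UU

/-!
# Borel determinacy for games with moves in a nonempty set A
-/

set_option autoImplicit false

namespace Pool.Agent.Det

universe u

open GTree

section Lists

variable (A : Type u) [Nonempty A]

/-- the tree of all finite lists over A. -/
def listTree : GTree.{u} where
  Pos := List A
  len := List.length
  par := List.dropLast
  len_par p := List.length_dropLast
  par_root p hp := by
    rw [List.length_eq_zero_iff] at hp
    subst hp; rfl
  exists_child p := by
    obtain ⟨a⟩ := ‹Nonempty A›
    exact ⟨p ++ [a], by simp, by simp⟩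

variable {A}

theorem listTree_ne_nil {p q : List A} (h : (listTree A).Child p q) : q ≠ [] := by
  rintro rfl
  have := h.2
  change (0 : ℕ) = p.length + 1 at this
  omega

/-- a child is obtained by appending its last element. -/
theorem listTree_child {p q : List A} (h : (listTree A).Child p q) :
    q = p ++ [q.getLast (listTree_ne_nil h)] := by
  have h1 : q.dropLast = p := h.1
  conv_lhs => rw [← List.dropLast_append_getLast (listTree_ne_nil h), h1]

theorem pos_child (x : (listTree A).Play) (n : ℕ) :
    (listTree A).Child (x.pos n) (x.pos (n + 1)) :=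
  ⟨x.par_pos n, by rw [x.len_pos, x.len_pos]⟩

/-- the sequence of moves of a play. -/
def seqOf (x : (listTree A).Play) (n : ℕ) : A :=
  (show List A from x.pos (n + 1)).getLast (listTree_ne_nil (pos_child x n))

theorem pos_succ (x : (listTree A).Play) (n : ℕ) :
    x.pos (n + 1) = ((show List A from x.pos n) ++ [seqOf x n] : List A) :=
  listTree_child (pos_child x n)

theorem pos_eq_ofFn (x : (listTree A).Play) (n : ℕ) :
    x.pos n = List.ofFn fun i : Fin n => seqOf x i := by
  induction n with
  | zero =>
    have h : (show List A from x.pos 0).length = 0 := x.len_pos 0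
    rw [List.length_eq_zero_iff] at h
    rw [List.ofFn_zero]; exact h
  | succ n ih =>
    rw [pos_succ, ih, List.ofFn_succ_last]
    rfl

/-- the play of a sequence of moves. -/
def playOf (z : ℕ → A) : (listTree A).Play where
  pos n := List.ofFn fun i : Fin n => z i
  len_pos n := List.length_ofFn
  par_pos n := by
    show (List.ofFn fun i : Fin (n + 1) => z i).dropLast = _
    rw [List.ofFn_succ_last, List.dropLast_concat]
    rfl

theorem playOf_pos (z : ℕ → A) (n : ℕ) : (playOf z).pos n = List.ofFn fun i : Fin n => z i := rfl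

theorem playOf_pos_succ (z : ℕ → A) (n : ℕ) :
    (playOf z).pos (n + 1) = ((List.ofFn fun i : Fin n => z i) ++ [z n] : List A) := by
  rw [playOf_pos, List.ofFn_succ_last]
  rfl

theorem seqOf_playOf (z : ℕ → A) : seqOf (playOf z) = z := by
  funext n
  have h1 := pos_succ (playOf z) n
  rw [playOf_pos_succ] at h1
  have h2 := List.append_inj_right' h1 rfl
  simpa using h2.symm

/-- equal positions give equal initial segments. -/
theorem seqOf_eq_of_pos_eq {x y : (listTree A).Play} {n : ℕ} (h : y.pos n = x.pos n) {i : ℕ}
    (hi : i < n) : seqOf y i = seqOf x i := by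
  rw [pos_eq_ofFn, pos_eq_ofFn] at h
  have h' : (fun i : Fin n => seqOf y i) = fun i : Fin n => seqOf x i := List.ofFn_injective h
  exact congrFun h' ⟨i, hi⟩

theorem isOp_seq [TopologicalSpace A] {W : Set (ℕ → A)} (hW : IsOpen W) :
    IsOp {x : (listTree A).Play | seqOf x ∈ W} := by
  intro x hx
  rw [isOpen_pi_iff] at hW
  obtain ⟨I, v, hv, hI⟩ := hW _ hx
  refine ⟨I.sup id + 1, fun y hy => hI ?_⟩
  intro i hi
  have h1 : i ≤ I.sup id := Finset.le_sup (f := id) hi
  rw [seqOf_eq_of_pos_eq hy (Nat.lt_succ_of_le h1)]
  exact (hv i hi).2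

theorem uu_seq (hU : Unravel_Stmt.{u}) (hL : InvLim_Stmt.{u}) [TopologicalSpace A]
    {W : Set (ℕ → A)} (hW : @MeasurableSet (ℕ → A) (borel (ℕ → A)) W) :
    UU {x : (listTree A).Play | seqOf x ∈ W} := by
  refine MeasurableSpace.generateFrom_induction (C := {s : Set (ℕ → A) | IsOpen s})
    (p := fun W _ => UU {x : (listTree A).Play | seqOf x ∈ W}) ?_ ?_ ?_ ?_ W hW
  · intro t ht _
    exact uuOpen hU _ _ (isOp_seq ht)
  · refine uuOpen hU _ _ ?_
    intro x hx
    exact absurd hx (by simp)
  · intro t _ ht
    exact ht.compl
  · intro s _ hs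
    have h1 := uuUnion hU hL _ (fun i => {x : (listTree A).Play | seqOf x ∈ s i}) hs
    have h2 : (⋃ i, {x : (listTree A).Play | seqOf x ∈ s i})
        = {x : (listTree A).Play | seqOf x ∈ ⋃ i, s i} := by
      ext x; simp
    rw [← h2]; exact h1

/-- a strategy on the tree of lists as a function on lists. -/
def stratFun (s : (listTree A).Strat) (l : List A) : A :=
  (show List A from s.move l).getLast (listTree_ne_nil (s.child l))

theorem stratFun_spec (s : (listTree A).Strat) (l : List A) :
    s.move l = (l ++ [stratFun s l] : List A) := listTree_child (s.child l)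

end Lists

theorem borelDet (hU : Unravel_Stmt.{u}) (hL : InvLim_Stmt.{u}) : BorelDet_Stmt.{u} := by
  intro A _ _ _ W hW
  have hroot : ∀ p q : (listTree A).Pos, (listTree A).len p = 0 → (listTree A).len q = 0 →
      p = q := by
    intro p q hp hq
    have hp' : p = ([] : List A) := List.length_eq_zero_iff.1 hp
    have hq' : q = ([] : List A) := List.length_eq_zero_iff.1 hq
    rw [hp', hq']
  rcases determined (listTree A) _ hroot (uu_seq hU hL hW) with ⟨s, hs⟩ | ⟨s, hs⟩
  · left
    refine ⟨stratFun s, fun z hz => ?_⟩
    have h1 : Follows false s (playOf z) := by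
      intro n hn
      obtain ⟨m, rfl⟩ : ∃ m, n = 2 * m := ⟨n / 2, by
        have : n % 2 = 0 := hn
        omega⟩
      rw [playOf_pos_succ, stratFun_spec, hz m]
      rfl
    have h2 := hs _ h1
    simpa [seqOf_playOf] using h2
  · right
    refine ⟨stratFun s, fun z hz => ?_⟩
    have h1 : Follows true s (playOf z) := by
      intro n hn
      obtain ⟨m, rfl⟩ : ∃ m, n = 2 * m + 1 := ⟨n / 2, by
        have : n % 2 = 1 := hn
        omega⟩
      rw [playOf_pos_succ, stratFun_spec, hz m]
      rfl
    have h2 := hs _ h1
    simpa [seqOf_playOf] using h2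

end Pool.Agent.Det
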