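import Pool.Agent.Det.Defs
import Pool.Agent.LCL89.BD.Stmt

/-!
# The causal form of Borel determinacy from the graded form
-/

namespace Pool.Agent.Det

theorem causal (h : GradedDet_Stmt.{0}) : Pool.Agent.LCL89.BD.StmtCausal := by
  intro M N _ _ _ _ _ _ _ _ W hW
  have hW' : @MeasurableSet ((∀ n, M n) × (∀ n, N n)) (borel ((∀ n, M n) × (∀ n, N n))) Wᶜ :=
    @MeasurableSet.compl _ W (borel _) hW
  rcases h ℕ ℕ M N id id Wᶜ hW' with ⟨H, h1, h2⟩ | ⟨F, h1, h2⟩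
  · exact Or.inr ⟨H, fun n q q' hq => h1 n q q' hq, fun q => h2 q⟩
  · exact Or.inl ⟨F, fun n p p' hp => h1 n p p' hp, fun p => not_not.1 (h2 p)⟩

end Pool.Agent.Det
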