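import Mathlib

/-!
# Games on trees, coverings (Martin), and the statements of the modules

Positions are elements of one type with a length and a parent (no dependent types, no casts).
A strategy is a total function giving a child of every position; it is only used at the positions
where its owner is to move.  Player false = I moves at even lengths, player true = II at odd lengths.
-/

namespace Pool.Agent.Det

universe u

/-- A game tree: every position has a length and a parent, and every position has a child. -/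
structure GTree where
  Pos : Type u
  len : Pos → ℕ
  par : Pos → Pos
  len_par : ∀ p, len (par p) = len p - 1
  par_root : ∀ p, len p = 0 → par p = p
  exists_child : ∀ p, ∃ q, par q = p ∧ len q = len p + 1

/-- b is to move at length n. -/
def Turn (b : Bool) (n : ℕ) : Prop := n % 2 = b.toNat

namespace GTree

variable (T : GTree.{u})

/-- q is a child of p. -/
def Child (p q : T.Pos) : Prop := T.par q = p ∧ T.len q = T.len p + 1

/-- prefix of length m (p itself if len p ≤ m). -/
def pre (m : ℕ) (p : T.Pos) : T.Pos := (T.par)^[T.len p - m] p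

/-- plays -/
@[ext]
structure Play where
  pos : ℕ → T.Pos
  len_pos : ∀ n, T.len (pos n) = n
  par_pos : ∀ n, T.par (pos (n + 1)) = pos n

/-- strategies -/
@[ext]
structure Strat where
  move : T.Pos → T.Pos
  child : ∀ p, T.Child p (move p)

variable {T}

/-- the play x follows the strategy s of player b. -/
def Follows (b : Bool) (s : T.Strat) (x : T.Play) : Prop :=
  ∀ n, Turn b n → x.pos (n + 1) = s.move (x.pos n)

/-- the play x follows the strategy s of player b from length m on. -/
def FollowsFrom (m : ℕ) (b : Bool) (s : T.Strat) (x : T.Play) : Prop :=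
  ∀ n, m ≤ n → Turn b n → x.pos (n + 1) = s.move (x.pos n)

variable (T)

/-- player b can force, from p on, that a position of U is reached (at p or later). -/
def Win (b : Bool) (U : Set T.Pos) (p : T.Pos) : Prop :=
  ∃ s : T.Strat, ∀ x : T.Play, x.pos (T.len p) = p → FollowsFrom (T.len p) b s x →
    ∃ n, T.len p ≤ n ∧ x.pos n ∈ U

variable {T}

/-- open sets of plays (combinatorial). -/
def IsOp (X : Set T.Play) : Prop := ∀ x ∈ X, ∃ n, ∀ y : T.Play, y.pos n = x.pos n → y ∈ X

/-- clopen sets of plays -/
def IsClop (X : Set T.Play) : Prop := IsOp X ∧ IsOp Xᶜ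

end GTree

open GTree

/-- length and parent preserving maps -/
structure Hom (S T : GTree.{u}) where
  f : S.Pos → T.Pos
  len_f : ∀ p, T.len (f p) = S.len p
  par_f : ∀ p, f (S.par p) = T.par (f p)

namespace Hom

variable {R S T : GTree.{u}}

/-- image of a play -/
def play (h : Hom S T) (x : S.Play) : T.Play where
  pos n := h.f (x.pos n)
  len_pos n := by rw [h.len_f, x.len_pos]
  par_pos n := by rw [← h.par_f, x.par_pos]

@[simp] theorem play_pos (h : Hom S T) (x : S.Play) (n : ℕ) :
    (h.play x).pos n = h.f (x.pos n) := rfl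

/-- composition -/
def comp (g : Hom S T) (h : Hom R S) : Hom R T where
  f p := g.f (h.f p)
  len_f p := by rw [g.len_f, h.len_f]
  par_f p := by rw [h.par_f, g.par_f]

@[simp] theorem comp_f (g : Hom S T) (h : Hom R S) (p : R.Pos) : (g.comp h).f p = g.f (h.f p) := rfl

theorem comp_play (g : Hom S T) (h : Hom R S) (x : R.Play) :
    (g.comp h).play x = g.play (h.play x) := rfl

/-- identity -/
def id (T : GTree.{u}) : Hom T T where
  f p := p
  len_f _ := rfl
  par_f _ := rfl

end Hom

/-- S is a k-covering of T. -/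
structure Cov (k : ℕ) (S T : GTree.{u}) where
  π : Hom S T
  low_surj : ∀ p, T.len p ≤ 2 * k → ∃ q, π.f q = p
  low_inj : ∀ q q', S.len q ≤ 2 * k → π.f q = π.f q' → q = q'
  φ : Bool → S.Strat → T.Strat
  loc : ∀ b (s s' : S.Strat) n, (∀ q, S.len q ≤ n → s.move q = s'.move q) →
    ∀ p, T.len p ≤ n → (φ b s).move p = (φ b s').move p
  low : ∀ b (s : S.Strat) q, S.len q < 2 * k → (φ b s).move (π.f q) = π.f (s.move q)
  lift : ∀ b (s : S.Strat) (x : T.Play), Follows b (φ b s) x →
    ∃ y : S.Play, π.play y = x ∧ Follows b s y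

/-! ## Statements of the modules -/

/-- closed sets can be unravelled: C is a set of positions closed under parents. -/
def Unravel_Stmt : Prop :=
  ∀ (T : GTree.{u}) (k : ℕ) (C : Set T.Pos), (∀ p ∈ C, T.par p ∈ C) →
    ∃ (S : GTree.{u}) (c : Cov k S T) (D : Set S.Pos),
      ∀ y : S.Play, (∀ n, c.π.f (y.pos n) ∈ C) ↔ y.pos (2 * k + 2) ∈ D

/-- inverse limits of coverings. -/
def InvLim_Stmt : Prop :=
  ∀ (k : ℕ) (T : ℕ → GTree.{u}) (c : ∀ i, Cov (k + i) (T (i + 1)) (T i)),
    ∃ (S : GTree.{u}) (d : Cov k S (T 0)) (h : ∀ i, Hom S (T i)),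
      h 0 = d.π ∧ ∀ i, (c i).π.comp (h (i + 1)) = h i

/-- composition of coverings. -/
def CovComp_Stmt : Prop :=
  ∀ (k : ℕ) (R S T : GTree.{u}) (c : Cov k S T) (d : Cov k R S),
    ∃ e : Cov k R T, e.π = c.π.comp d.π

/-- X is universally unravelable. -/
def UU {T : GTree.{u}} (X : Set T.Play) : Prop :=
  ∀ (R : GTree.{u}) (g : Hom R T) (k : ℕ), ∃ (S : GTree.{u}) (c : Cov k S R),
    IsClop {y : S.Play | g.play (c.π.play y) ∈ X}

/-- universally unravelable sets: open sets, complements, countable unions. -/
def UUOpen_Stmt : Prop := ∀ (T : GTree.{u}) (X : Set T.Play), IsOp X → UU X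
def UUCompl_Stmt : Prop := ∀ (T : GTree.{u}) (X : Set T.Play), UU X → UU Xᶜ
def UUUnion_Stmt : Prop := ∀ (T : GTree.{u}) (X : ℕ → Set T.Play), (∀ i, UU (X i)) → UU (⋃ i, X i)

/-- determinacy of universally unravelable games on trees with one root. -/
def Determined_Stmt : Prop :=
  ∀ (T : GTree.{u}) (X : Set T.Play), (∀ p q, T.len p = 0 → T.len q = 0 → p = q) → UU X →
    (∃ s : T.Strat, ∀ x, Follows false s x → x ∈ X) ∨
    (∃ s : T.Strat, ∀ x, Follows true s x → x ∉ X)

/-- Borel determinacy for games with moves in a nonempty set A (strategies act on the list of all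
previous moves). -/
def BorelDet_Stmt : Prop :=
  ∀ (A : Type u) [Nonempty A] [TopologicalSpace A] [DiscreteTopology A] (W : Set (ℕ → A)),
    @MeasurableSet (ℕ → A) (borel (ℕ → A)) W →
    (∃ s : List A → A, ∀ x : ℕ → A,
      (∀ n, x (2 * n) = s (List.ofFn fun i : Fin (2 * n) => x i)) → x ∈ W) ∨
    (∃ s : List A → A, ∀ x : ℕ → A,
      (∀ n, x (2 * n + 1) = s (List.ofFn fun i : Fin (2 * n + 1) => x i)) → x ∉ W)

/-- Graded form: I chooses p in the product of the D i, II chooses q in the product of the E j;
at turn n first I reveals his coordinates of grade n, then II hers.  W is the winning set of I. -/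
def GradedDet_Stmt : Prop :=
  ∀ (I J : Type u) (D : I → Type u) (E : J → Type u)
    [∀ i, Nonempty (D i)] [∀ j, Nonempty (E j)]
    [∀ i, TopologicalSpace (D i)] [∀ j, TopologicalSpace (E j)]
    [∀ i, DiscreteTopology (D i)] [∀ j, DiscreteTopology (E j)]
    (gI : I → ℕ) (gJ : J → ℕ) (W : Set ((∀ i, D i) × (∀ j, E j))),
    @MeasurableSet ((∀ i, D i) × (∀ j, E j)) (borel ((∀ i, D i) × (∀ j, E j))) W →
    (∃ H : (∀ j, E j) → (∀ i, D i),
      (∀ i q q', (∀ j, gJ j < gI i → q j = q' j) → H q i = H q' i) ∧ ∀ q, (H q, q) ∈ W) ∨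
    (∃ F : (∀ i, D i) → (∀ j, E j),
      (∀ j p p', (∀ i, gI i ≤ gJ j → p i = p' i) → F p j = F p' j) ∧ ∀ p, (p, F p) ∉ W)

end Pool.Agent.Det
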