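import Pool.Agent.Det.Defs

/-!
# From Borel determinacy to the graded form

A move is a pair of full functions; at turn n only the coordinates of grade n count (decoding is
continuous), and the opponent of a winning strategy is fed truncated functions.
-/

set_option autoImplicit false

namespace Pool.Agent.Det

universe u

namespace Graded

section run

variable {A : Type u}

/-- the list of the first n moves produced by the rule g -/
def run (g : ℕ → List A → A) : ℕ → List A
  | 0 => []
  | n + 1 => run g n ++ [g n (run g n)]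

/-- the sequence of moves produced by the rule g -/
def seq (g : ℕ → List A → A) (n : ℕ) : A := g n (run g n)

theorem ofFn_seq (g : ℕ → List A → A) (n : ℕ) :
    List.ofFn (fun i : Fin n => seq g i) = run g n := by
  induction n with
  | zero => rfl
  | succ n ih =>
    rw [List.ofFn_succ', List.concat_eq_append]
    show List.ofFn (fun i : Fin n => seq g i) ++ [seq g n] = _
    rw [ih]
    rfl

theorem run_congr (g g' : ℕ → List A → A) (n : ℕ) (h : ∀ m, m < n → g m = g' m) :
    run g n = run g' n := by
  induction n with
  | zero => rfl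
  | succ n ih =>
    show run g n ++ [g n (run g n)] = run g' n ++ [g' n (run g' n)]
    rw [ih (fun m hm => h m (by omega)), h n (by omega)]

theorem seq_congr (g g' : ℕ → List A → A) (n : ℕ) (h : ∀ m, m ≤ n → g m = g' m) :
    seq g n = seq g' n := by
  unfold seq
  rw [run_congr g g' n (fun m hm => h m (by omega)), h n le_rfl]

end run

/-- moves: pairs of full functions -/
structure Mv {I J : Type u} (D : I → Type u) (E : J → Type u) : Type u where
  p : ∀ i, D i
  q : ∀ j, E j

section

variable {I J : Type u} {D : I → Type u} {E : J → Type u}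

/-- only the coordinates of grade n of the n-th moves count -/
def dec (gI : I → ℕ) (gJ : J → ℕ) (x : ℕ → Mv D E) : (∀ i, D i) × (∀ j, E j) :=
  (fun i => (x (2 * gI i)).p i, fun j => (x (2 * gJ j + 1)).q j)

open Classical in
/-- truncation of a function to the grades at most n -/
noncomputable def trunc {J : Type u} {E : J → Type u} [∀ j, Nonempty (E j)] (gJ : J → ℕ) (n : ℕ)
    (q : ∀ j, E j) : ∀ j, E j := fun j => if gJ j ≤ n then q j else Classical.arbitrary _

theorem trunc_congr {J : Type u} {E : J → Type u} [∀ j, Nonempty (E j)] (gJ : J → ℕ) (n : ℕ)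
    (q q' : ∀ j, E j) (h : ∀ j, gJ j ≤ n → q j = q' j) : trunc gJ n q = trunc gJ n q' := by
  funext j
  unfold trunc
  by_cases hj : gJ j ≤ n
  · rw [if_pos hj, if_pos hj, h j hj]
  · rw [if_neg hj, if_neg hj]

theorem trunc_self {J : Type u} {E : J → Type u} [∀ j, Nonempty (E j)] (gJ : J → ℕ)
    (q : ∀ j, E j) (j : J) : trunc gJ (gJ j) q j = q j := by
  unfold trunc
  rw [if_pos le_rfl]

theorem continuous_dec [∀ i, TopologicalSpace (D i)] [∀ j, TopologicalSpace (E j)]
    [TopologicalSpace (Mv D E)] [DiscreteTopology (Mv D E)] (gI : I → ℕ) (gJ : J → ℕ) :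
    Continuous (dec (D := D) (E := E) gI gJ) := by
  refine Continuous.prodMk ?_ ?_
  · refine continuous_pi fun i => ?_
    exact (continuous_of_discreteTopology (f := fun m : Mv D E => m.p i)).comp
      (continuous_apply (2 * gI i))
  · refine continuous_pi fun j => ?_
    exact (continuous_of_discreteTopology (f := fun m : Mv D E => m.q j)).comp
      (continuous_apply (2 * gJ j + 1))

end

end Graded

open Pool.Agent.Det.Graded in
theorem gradedDet (hdet : BorelDet_Stmt.{u}) : GradedDet_Stmt.{u} := by
  classical
  intro I J D E _ _ _ _ _ _ gI gJ W hW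
  let _ : TopologicalSpace (Mv D E) := ⊥
  have : DiscreteTopology (Mv D E) := ⟨rfl⟩
  have : Nonempty (Mv D E) := ⟨⟨fun _ => Classical.arbitrary _, fun _ => Classical.arbitrary _⟩⟩
  have hm : @MeasurableSet (ℕ → Mv D E) (borel (ℕ → Mv D E)) (dec gI gJ ⁻¹' W) :=
    (continuous_dec (D := D) (E := E) gI gJ).borel_measurable hW
  rcases hdet (Mv D E) (dec gI gJ ⁻¹' W) hm with ⟨s, hs⟩ | ⟨s, hs⟩
  · left
    let g : (∀ j, E j) → ℕ → List (Mv D E) → Mv D E := fun q n l =>
      if n % 2 = 0 then s l else ⟨fun _ => Classical.arbitrary _, trunc gJ (n / 2) q⟩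
    refine ⟨fun q i => (seq (g q) (2 * gI i)).p i, ?_, ?_⟩
    · intro i q q' h
      show (seq (g q) (2 * gI i)).p i = (seq (g q') (2 * gI i)).p i
      rw [seq_congr (g q) (g q') (2 * gI i)]
      intro m hm
      funext l
      show (if m % 2 = 0 then s l else (⟨fun _ => Classical.arbitrary _, trunc gJ (m / 2) q⟩ :
        Mv D E)) = if m % 2 = 0 then s l else ⟨fun _ => Classical.arbitrary _, trunc gJ (m / 2) q'⟩
      by_cases h2 : m % 2 = 0
      · rw [if_pos h2, if_pos h2]
      · rw [if_neg h2, if_neg h2, trunc_congr gJ (m / 2) q q' (fun j hj => h j (by omega))]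
    · intro q
      have h1 : seq (g q) ∈ dec gI gJ ⁻¹' W := by
        apply hs
        intro n
        rw [ofFn_seq]
        show (if 2 * n % 2 = 0 then s (run (g q) (2 * n)) else _) = _
        rw [if_pos (by omega)]
      have h2 : dec gI gJ (seq (g q)) = (fun i => (seq (g q) (2 * gI i)).p i, q) := by
        refine Prod.ext rfl ?_
        funext j
        show (if (2 * gJ j + 1) % 2 = 0 then s (run (g q) (2 * gJ j + 1)) else
          (⟨fun _ => Classical.arbitrary _, trunc gJ ((2 * gJ j + 1) / 2) q⟩ : Mv D E)).q j = q j
        rw [if_neg (by omega)]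
        have e : (2 * gJ j + 1) / 2 = gJ j := by omega
        show trunc gJ ((2 * gJ j + 1) / 2) q j = q j
        rw [e, trunc_self]
      have h3 : dec gI gJ (seq (g q)) ∈ W := h1
      rw [h2] at h3
      exact h3
  · right
    let g : (∀ i, D i) → ℕ → List (Mv D E) → Mv D E := fun p n l =>
      if n % 2 = 0 then ⟨trunc gI (n / 2) p, fun _ => Classical.arbitrary _⟩ else s l
    refine ⟨fun p j => (seq (g p) (2 * gJ j + 1)).q j, ?_, ?_⟩
    · intro j p p' h
      show (seq (g p) (2 * gJ j + 1)).q j = (seq (g p') (2 * gJ j + 1)).q j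
      rw [seq_congr (g p) (g p') (2 * gJ j + 1)]
      intro m hm
      funext l
      show (if m % 2 = 0 then (⟨trunc gI (m / 2) p, fun _ => Classical.arbitrary _⟩ : Mv D E)
        else s l) = if m % 2 = 0 then ⟨trunc gI (m / 2) p', fun _ => Classical.arbitrary _⟩ else s l
      by_cases h2 : m % 2 = 0
      · rw [if_pos h2, if_pos h2, trunc_congr gI (m / 2) p p' (fun i hi => h i (by omega))]
      · rw [if_neg h2, if_neg h2]
    · intro p
      have h1 : seq (g p) ∉ dec gI gJ ⁻¹' W := by
        apply hs
        intro n
        rw [ofFn_seq]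
        show (if (2 * n + 1) % 2 = 0 then _ else s (run (g p) (2 * n + 1))) = _
        rw [if_neg (by omega)]
      have h2 : dec gI gJ (seq (g p)) = (p, fun j => (seq (g p) (2 * gJ j + 1)).q j) := by
        refine Prod.ext ?_ rfl
        funext i
        show (if (2 * gI i) % 2 = 0 then
          (⟨trunc gI ((2 * gI i) / 2) p, fun _ => Classical.arbitrary _⟩ : Mv D E)
          else s (run (g p) (2 * gI i))).p i = p i
        rw [if_pos (by omega)]
        have e : (2 * gI i) / 2 = gI i := by omega
        show trunc gI ((2 * gI i) / 2) p i = p i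
        rw [e, trunc_self]
      intro h3
      apply h1
      show dec gI gJ (seq (g p)) ∈ W
      rw [h2]
      exact h3

end Pool.Agent.Det
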