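import Pool.Agent.Det.Defs

/-!
# Inverse limits of coverings

The limit tree consists of the threads; a thread is determined by its i-th coordinate as soon as
its length is at most 2 (k + i).  The strategy of the limit is pushed down through the levels.
-/

set_option autoImplicit false

namespace Pool.Agent.Det

universe u

open GTree

namespace InvLim

/-- threads of an inverse system -/
def IsThread {K : ℕ → ℕ} {T : ℕ → GTree.{u}} (c : ∀ i, Cov (K i) (T (i + 1)) (T i))
    (p : ∀ i, (T i).Pos) : Prop := ∀ i, (c i).π.f (p (i + 1)) = p i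

theorem IsThread.len {K : ℕ → ℕ} {T : ℕ → GTree.{u}} {c : ∀ i, Cov (K i) (T (i + 1)) (T i)}
    {p : ∀ i, (T i).Pos} (hp : IsThread c p) (i : ℕ) : (T i).len (p i) = (T 0).len (p 0) := by
  induction i with
  | zero => rfl
  | succ i ih => rw [← ih, ← hp i, (c i).π.len_f]

theorem exists_thread (i0 : ℕ) : ∀ {K : ℕ → ℕ} {T : ℕ → GTree.{u}}
    (c : ∀ i, Cov (K i) (T (i + 1)) (T i)) (q : (T i0).Pos),
    (∀ i, i0 ≤ i → (T i0).len q ≤ 2 * K i) → ∃ p : ∀ i, (T i).Pos, IsThread c p ∧ p i0 = q := by
  induction i0 with
  | zero =>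
    intro K T c q hq
    have step : ∀ i (r : {r : (T i).Pos // (T i).len r = (T 0).len q}),
        ∃ r' : {r' : (T (i + 1)).Pos // (T (i + 1)).len r' = (T 0).len q},
          (c i).π.f r'.1 = r.1 := by
      rintro i ⟨r, hr⟩
      obtain ⟨r', hr'⟩ := (c i).low_surj r (by rw [hr]; exact hq i (Nat.zero_le _))
      exact ⟨⟨r', by rw [← (c i).π.len_f, hr', hr]⟩, hr'⟩
    choose f hf using step
    let g : ∀ i, {r : (T i).Pos // (T i).len r = (T 0).len q} := fun i =>
      Nat.rec ⟨q, rfl⟩ (fun i r => f i r) i
    exact ⟨fun i => (g i).1, fun i => hf i (g i), rfl⟩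
  | succ i0 ih =>
    intro K T c q hq
    obtain ⟨p, hp, hpq⟩ := ih (K := fun i => K (i + 1)) (T := fun i => T (i + 1))
      (fun i => c (i + 1)) q (fun i hi => hq (i + 1) (by omega))
    let p' : ∀ i, (T i).Pos := fun i =>
      match i with
      | 0 => (c 0).π.f (p 0)
      | i + 1 => p i
    refine ⟨p', ?_, hpq⟩
    intro i
    cases i with
    | zero => rfl
    | succ i => exact hp i

section

variable {k : ℕ} {T : ℕ → GTree.{u}} (c : ∀ i, Cov (k + i) (T (i + 1)) (T i))

theorem thread_unique {p p' : ∀ i, (T i).Pos}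
    (hp : IsThread (K := fun i => k + i) c p) (hp' : IsThread (K := fun i => k + i) c p')
    {i0 : ℕ} (h : p i0 = p' i0) (hl : (T i0).len (p i0) ≤ 2 * (k + i0)) : p = p' := by
  have hup : ∀ i, i0 ≤ i → p i = p' i := by
    intro i hi
    induction i, hi using Nat.le_induction with
    | base => exact h
    | succ i hi ih =>
      apply (c i).low_inj
      · rw [hp.len, ← hp.len i0]; omega
      · rw [hp i, hp' i, ih]
  have hdown : ∀ j, j ≤ i0 → p (i0 - j) = p' (i0 - j) := by
    intro j
    induction j with
    | zero => intro _; exact h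
    | succ j ih =>
      intro hj
      have h1 := ih (by omega)
      have e : i0 - j = (i0 - (j + 1)) + 1 := by omega
      rw [e] at h1
      rw [← hp (i0 - (j + 1)), ← hp' (i0 - (j + 1)), h1]
  funext i
  by_cases hi : i0 ≤ i
  · exact hup i hi
  · have h2 := hdown (i0 - i) (by omega)
    have e : i0 - (i0 - i) = i := by omega
    rw [e] at h2
    exact h2

theorem exists_thread' (i0 : ℕ) (q : (T i0).Pos) (hq : (T i0).len q ≤ 2 * (k + i0)) :
    ∃ p : {p : ∀ i, (T i).Pos // IsThread (K := fun i => k + i) c p}, p.1 i0 = q := by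
  obtain ⟨p, hp, h⟩ := exists_thread i0 (K := fun i => k + i) c q
    (fun i hi => by show (T i0).len q ≤ 2 * (k + i); omega)
  exact ⟨⟨p, hp⟩, h⟩

/-- the limit tree -/
def limTree : GTree.{u} where
  Pos := {p : ∀ i, (T i).Pos // IsThread (K := fun i => k + i) c p}
  len p := (T 0).len (p.1 0)
  par p := ⟨fun i => (T i).par (p.1 i), fun i => by rw [(c i).π.par_f, p.2 i]⟩
  len_par p := (T 0).len_par _
  par_root p h := by
    apply Subtype.ext
    funext i
    exact (T i).par_root _ (by rw [p.2.len]; exact h)
  exists_child p := by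
    obtain ⟨q, hq, hl⟩ := (T ((T 0).len (p.1 0) + 1)).exists_child (p.1 ((T 0).len (p.1 0) + 1))
    have hlen : (T ((T 0).len (p.1 0) + 1)).len (p.1 ((T 0).len (p.1 0) + 1))
        = (T 0).len (p.1 0) := p.2.len _
    obtain ⟨r, hr⟩ := exists_thread' c _ q (by rw [hl, hlen]; omega)
    refine ⟨r, ?_, ?_⟩
    · apply Subtype.ext
      refine thread_unique (k := k) (T := T) c (i0 := (T 0).len (p.1 0) + 1) ?_ p.2 ?_ ?_
      · intro i
        show (c i).π.f ((T (i + 1)).par (r.1 (i + 1))) = (T i).par (r.1 i)
        rw [(c i).π.par_f, r.2 i]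
      · show (T ((T 0).len (p.1 0) + 1)).par (r.1 ((T 0).len (p.1 0) + 1)) = _
        rw [hr, hq]
      · show (T ((T 0).len (p.1 0) + 1)).len ((T ((T 0).len (p.1 0) + 1)).par
          (r.1 ((T 0).len (p.1 0) + 1))) ≤ _
        rw [hr, hq, hlen]; omega
    · show (T 0).len (r.1 0) = _
      rw [← r.2.len ((T 0).len (p.1 0) + 1), hr, hl, hlen]

theorem lim_len (p : (limTree c).Pos) (i : ℕ) : (T i).len (p.1 i) = (limTree c).len p :=
  p.2.len i

/-- projections of the limit tree -/
def proj (i : ℕ) : Hom (limTree c) (T i) where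
  f p := p.1 i
  len_f p := p.2.len i
  par_f _ := rfl

theorem proj_comp (i : ℕ) : (c i).π.comp (proj c (i + 1)) = proj c i := by
  have : ∀ p, ((c i).π.comp (proj c (i + 1))).f p = (proj c i).f p := fun p => p.2 i
  cases h : (c i).π.comp (proj c (i + 1)) with
  | mk f h1 h2 =>
    cases h' : proj c i with
    | mk f' h1' h2' =>
      have e : f = f' := by
        funext p
        have := this p
        rw [h, h'] at this
        exact this
      subst e
      rfl

theorem proj_surj (i : ℕ) (q : (T i).Pos) (hq : (T i).len q ≤ 2 * (k + i)) :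
    ∃ p, (proj c i).f p = q := exists_thread' c i q hq

theorem proj_inj (i : ℕ) (p p' : (limTree c).Pos) (hl : (limTree c).len p ≤ 2 * (k + i))
    (h : (proj c i).f p = (proj c i).f p') : p = p' := by
  apply Subtype.ext
  exact thread_unique c p.2 p'.2 h (by rw [p.2.len]; exact hl)

open Classical in
/-- the section of the projection at short positions -/
noncomputable def thr (i : ℕ) (q : (T i).Pos) (hq : (T i).len q ≤ 2 * (k + i)) :
    (limTree c).Pos := (proj_surj c i q hq).choose

theorem proj_thr (i : ℕ) (q : (T i).Pos) (hq : (T i).len q ≤ 2 * (k + i)) :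
    (proj c i).f (thr c i q hq) = q := (proj_surj c i q hq).choose_spec

theorem thr_len (i : ℕ) (q : (T i).Pos) (hq : (T i).len q ≤ 2 * (k + i)) :
    (limTree c).len (thr c i q hq) = (T i).len q := by
  have h := congrArg (T i).len (proj_thr c i q hq)
  rw [(proj c i).len_f] at h
  exact h

theorem thr_proj (i : ℕ) (p : (limTree c).Pos) (hq : (T i).len ((proj c i).f p) ≤ 2 * (k + i)) :
    thr c i ((proj c i).f p) hq = p := by
  apply proj_inj c i
  · rw [thr_len]; exact hq
  · exact proj_thr c i _ hq

open Classical in
/-- truncation of a strategy of the limit at level i -/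
noncomputable def trunc (s : (limTree c).Strat) (i : ℕ) : (T i).Strat where
  move q := if h : (T i).len q < 2 * (k + i) then (proj c i).f (s.move (thr c i q h.le))
    else ((T i).exists_child q).choose
  child q := by
    by_cases h : (T i).len q < 2 * (k + i)
    · rw [dif_pos h]
      obtain ⟨h1, h2⟩ := s.child (thr c i q h.le)
      refine ⟨?_, ?_⟩
      · rw [← (proj c i).par_f, h1, proj_thr]
      · rw [(proj c i).len_f, h2, thr_len]
    · rw [dif_neg h]
      exact ((T i).exists_child q).choose_spec

theorem trunc_low (s : (limTree c).Strat) (i : ℕ) (p : (limTree c).Pos)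
    (h : (limTree c).len p < 2 * (k + i)) :
    (trunc c s i).move ((proj c i).f p) = (proj c i).f (s.move p) := by
  have hl : (T i).len ((proj c i).f p) < 2 * (k + i) := by rw [(proj c i).len_f]; exact h
  show (if h : (T i).len ((proj c i).f p) < 2 * (k + i) then
      (proj c i).f (s.move (thr c i ((proj c i).f p) h.le))
    else ((T i).exists_child ((proj c i).f p)).choose) = _
  rw [dif_pos hl, thr_proj]

/-- approximations of the pushed down strategies -/
noncomputable def approx (b : Bool) (s : (limTree c).Strat) : ℕ → ∀ i, (T i).Strat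
  | 0 => fun i => trunc c s i
  | d + 1 => fun i => (c i).φ b (approx b s d (i + 1))

theorem approx_stable (b : Bool) (s : (limTree c).Strat) (d : ℕ) :
    ∀ i (q : (T i).Pos), (T i).len q < 2 * (k + i + d) →
      (approx c b s (d + 1) i).move q = (approx c b s d i).move q := by
  induction d with
  | zero =>
    intro i q hq
    obtain ⟨p, rfl⟩ := proj_surj c i q (by omega)
    rw [(proj c i).len_f] at hq
    show ((c i).φ b (trunc c s (i + 1))).move ((proj c i).f p)
      = (trunc c s i).move ((proj c i).f p)
    rw [trunc_low c s i p (by omega)]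
    have e : ∀ p, (proj c i).f p = (c i).π.f ((proj c (i + 1)).f p) := fun p => (p.2 i).symm
    rw [e p, (c i).low b _ _ (by rw [(proj c (i + 1)).len_f]; omega),
      trunc_low c s (i + 1) p (by omega), ← e]
  | succ d ih =>
    intro i q hq
    show ((c i).φ b (approx c b s (d + 1) (i + 1))).move q
      = ((c i).φ b (approx c b s d (i + 1))).move q
    exact (c i).loc b _ _ ((T i).len q) (fun r hr => ih (i + 1) r (by omega)) q le_rfl

theorem approx_stable' (b : Bool) (s : (limTree c).Strat) (i : ℕ) (q : (T i).Pos) (d e : ℕ)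
    (hde : d ≤ e) (hq : (T i).len q < 2 * (k + i + d)) :
    (approx c b s e i).move q = (approx c b s d i).move q := by
  induction e, hde using Nat.le_induction with
  | base => rfl
  | succ e he ih => rw [approx_stable c b s e i q (by omega), ih]

/-- the limit of the pushed down strategies, at every level -/
noncomputable def lims (b : Bool) (s : (limTree c).Strat) (i : ℕ) : (T i).Strat where
  move q := (approx c b s ((T i).len q + 1) i).move q
  child q := (approx c b s ((T i).len q + 1) i).child q

theorem lims_eq (b : Bool) (s : (limTree c).Strat) (i : ℕ) (q : (T i).Pos) (d : ℕ)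
    (hq : (T i).len q < 2 * (k + i + d)) :
    (lims c b s i).move q = (approx c b s d i).move q := by
  show (approx c b s ((T i).len q + 1) i).move q = _
  rcases le_total d ((T i).len q + 1) with h | h
  · exact approx_stable' c b s i q d _ h hq
  · exact (approx_stable' c b s i q ((T i).len q + 1) d h (by omega)).symm

theorem lims_push (b : Bool) (s : (limTree c).Strat) (i : ℕ) :
    lims c b s i = (c i).φ b (lims c b s (i + 1)) := by
  apply GTree.Strat.ext
  funext q
  rw [lims_eq c b s i q ((T i).len q + 1 + 1) (by omega)]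
  show ((c i).φ b (approx c b s ((T i).len q + 1) (i + 1))).move q = _
  exact (c i).loc b _ _ ((T i).len q)
    (fun r hr => (lims_eq c b s (i + 1) r ((T i).len q + 1) (by omega)).symm) q le_rfl

theorem lims_low (b : Bool) (s : (limTree c).Strat) (i : ℕ) (p : (limTree c).Pos)
    (h : (limTree c).len p < 2 * (k + i)) :
    (lims c b s i).move ((proj c i).f p) = (proj c i).f (s.move p) := by
  rw [lims_eq c b s i _ 0 (by rw [(proj c i).len_f]; omega)]
  exact trunc_low c s i p h

theorem approx_loc (b : Bool) (s s' : (limTree c).Strat) (n : ℕ)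
    (h : ∀ q, (limTree c).len q ≤ n → s.move q = s'.move q) (d : ℕ) :
    ∀ i (q : (T i).Pos), (T i).len q ≤ n → (approx c b s d i).move q = (approx c b s' d i).move q := by
  induction d with
  | zero =>
    intro i q hq
    show (if h : (T i).len q < 2 * (k + i) then (proj c i).f (s.move (thr c i q h.le))
      else ((T i).exists_child q).choose) =
      (if h : (T i).len q < 2 * (k + i) then (proj c i).f (s'.move (thr c i q h.le))
      else ((T i).exists_child q).choose)
    by_cases hl : (T i).len q < 2 * (k + i)
    · rw [dif_pos hl, dif_pos hl, h _ (by rw [thr_len]; exact hq)]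
    · rw [dif_neg hl, dif_neg hl]
  | succ d ih =>
    intro i q hq
    exact (c i).loc b _ _ n (fun r hr => ih (i + 1) r hr) q hq

/-- lifted plays -/
theorem exists_plays (b : Bool) (s : (limTree c).Strat) (x : (T 0).Play)
    (hx : Follows b (lims c b s 0) x) :
    ∃ y : (limTree c).Play, (proj c 0).play y = x ∧ ∀ i, Follows b (lims c b s i)
      ((proj c i).play y) := by
  have step : ∀ i (z : {z : (T i).Play // Follows b (lims c b s i) z}),
      ∃ z' : {z' : (T (i + 1)).Play // Follows b (lims c b s (i + 1)) z'},
        (c i).π.play z'.1 = z.1 := by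
    rintro i ⟨z, hz⟩
    rw [lims_push] at hz
    obtain ⟨y, hy, hf⟩ := (c i).lift b _ z hz
    exact ⟨⟨y, hf⟩, hy⟩
  choose f hf using step
  let g : ∀ i, {z : (T i).Play // Follows b (lims c b s i) z} := fun i =>
    Nat.rec ⟨x, hx⟩ (fun i r => f i r) i
  have hg : ∀ i, (c i).π.play (g (i + 1)).1 = (g i).1 := fun i => hf i (g i)
  let y : (limTree c).Play :=
    { pos := fun n => ⟨fun i => (g i).1.pos n, fun i => by
        have h := congrArg (fun z : (T i).Play => z.pos n) (hg i)
        exact h⟩
      len_pos := fun n => (g 0).1.len_pos n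
      par_pos := fun n => by
        apply Subtype.ext
        funext i
        exact (g i).1.par_pos n }
  have hy : ∀ i, (proj c i).play y = (g i).1 := fun i => by
    apply GTree.Play.ext
    rfl
  refine ⟨y, hy 0, fun i => ?_⟩
  rw [hy i]
  exact (g i).2

/-- the limit covering -/
noncomputable def limCov : Cov k (limTree c) (T 0) where
  π := proj c 0
  low_surj p hp := proj_surj c 0 p hp
  low_inj q q' hq h := proj_inj c 0 q q' hq h
  φ b s := lims c b s 0
  loc b s s' n h p hp := by
    rw [lims_eq c b s 0 p (n + 1) (by omega), lims_eq c b s' 0 p (n + 1) (by omega)]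
    exact approx_loc c b s s' n h (n + 1) 0 p hp
  low b s q hq := lims_low c b s 0 q hq
  lift b s x hx := by
    obtain ⟨y, hy, hf⟩ := exists_plays c b s x hx
    refine ⟨y, hy, ?_⟩
    intro n hn
    apply proj_inj c (n + 1)
    · rw [y.len_pos]; omega
    · have h1 := hf (n + 1) n hn
      rw [Hom.play_pos, Hom.play_pos] at h1
      rw [h1]
      exact lims_low c b s (n + 1) (y.pos n) (by rw [y.len_pos]; omega)

end

end InvLim

theorem invLim : InvLim_Stmt.{u} := fun _ _ c =>
  ⟨InvLim.limTree c, InvLim.limCov c, fun i => InvLim.proj c i, rfl, fun i => InvLim.proj_comp c i⟩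

end Pool.Agent.Det
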