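import Pool.Agent.Det.Defs

/-!
# Composition of coverings, universally unravelable sets, determinacy of such sets

`CovComp`, `UUCompl` are unconditional, `UUOpen` follows from `Unravel_Stmt`, `UUUnion` from
`Unravel_Stmt` and `InvLim_Stmt`, and `Determined` is open determinacy (Gale-Stewart) in a covering
in which the payoff set is clopen.
-/

set_option autoImplicit false

namespace Pool.Agent.Det

universe u

open GTree

/-! ## Composition of coverings -/

/-- composition of coverings. -/
def Cov.comp {k : ℕ} {R S T : GTree.{u}} (c : Cov k S T) (d : Cov k R S) : Cov k R T where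
  π := c.π.comp d.π
  low_surj p hp := by
    obtain ⟨q, rfl⟩ := c.low_surj p hp
    rw [c.π.len_f] at hp
    obtain ⟨r, rfl⟩ := d.low_surj q hp
    exact ⟨r, rfl⟩
  low_inj q q' hq h := by
    refine d.low_inj q q' hq (c.low_inj _ _ ?_ h)
    rw [d.π.len_f]; exact hq
  φ b s := c.φ b (d.φ b s)
  loc b s s' n h := c.loc b _ _ n (d.loc b s s' n h)
  low b s q hq := by
    show (c.φ b (d.φ b s)).move (c.π.f (d.π.f q)) = c.π.f (d.π.f (s.move q))
    rw [c.low b _ _ (by rw [d.π.len_f]; exact hq), d.low b s q hq]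
  lift b s x hx := by
    obtain ⟨y, hy, hf⟩ := c.lift b _ x hx
    obtain ⟨z, hz, hf'⟩ := d.lift b s y hf
    exact ⟨z, by rw [Hom.comp_play, hz, hy], hf'⟩

theorem covComp : CovComp_Stmt.{u} := fun _ _ _ _ c d => ⟨c.comp d, rfl⟩

/-! ## Clopen sets of plays -/

theorem IsOp.preimage {S T : GTree.{u}} {X : Set T.Play} (h : IsOp X) (g : Hom S T) :
    IsOp {y : S.Play | g.play y ∈ X} := by
  intro y hy
  obtain ⟨n, hn⟩ := h _ hy
  refine ⟨n, fun y' hy' => hn _ ?_⟩
  rw [Hom.play_pos, Hom.play_pos, hy']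

theorem IsClop.preimage {S T : GTree.{u}} {X : Set T.Play} (h : IsClop X) (g : Hom S T) :
    IsClop {y : S.Play | g.play y ∈ X} :=
  ⟨IsOp.preimage h.1 g, IsOp.preimage h.2 g⟩

theorem IsClop.compl {T : GTree.{u}} {X : Set T.Play} (h : IsClop X) : IsClop Xᶜ :=
  ⟨h.2, by rw [compl_compl]; exact h.1⟩

theorem IsOp.iUnion {T : GTree.{u}} {X : ℕ → Set T.Play} (h : ∀ i, IsOp (X i)) :
    IsOp (⋃ i, X i) := by
  intro x hx
  obtain ⟨i, hi⟩ := Set.mem_iUnion.1 hx
  obtain ⟨n, hn⟩ := h i x hi
  exact ⟨n, fun y hy => Set.mem_iUnion.2 ⟨i, hn y hy⟩⟩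

theorem UU.compl {T : GTree.{u}} {X : Set T.Play} (h : UU X) : UU Xᶜ := by
  intro R g k
  obtain ⟨S, c, hc⟩ := h R g k
  exact ⟨S, c, IsClop.compl hc⟩

theorem uuCompl : UUCompl_Stmt.{u} := fun _ _ h => h.compl

/-! ## Open sets -/

/-- an open set can be unravelled. -/
theorem exists_cov_of_isOp (hU : Unravel_Stmt.{u}) {R : GTree.{u}} {Y : Set R.Play} (hY : IsOp Y)
    (k : ℕ) : ∃ (S : GTree.{u}) (c : Cov k S R), IsClop {y : S.Play | c.π.play y ∈ Y} := by
  -- positions some extension of which is outside Y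
  let C : Set R.Pos := {p | ∃ y : R.Play, y.pos (R.len p) = p ∧ y ∉ Y}
  have hC : ∀ p ∈ C, R.par p ∈ C := by
    rintro p ⟨y, hy, hyY⟩
    refine ⟨y, ?_, hyY⟩
    rw [R.len_par]
    cases hn : R.len p with
    | zero => rw [R.par_root p hn, ← hn]; simpa [hn] using hy
    | succ n =>
      rw [hn] at hy
      rw [← hy, y.par_pos]; rfl
  obtain ⟨S, c, D, hD⟩ := hU R k C hC
  have key : ∀ y : S.Play, c.π.play y ∈ Y ↔ y.pos (2 * k + 2) ∉ D := by
    intro y
    rw [← hD y]
    constructor
    · intro h hall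
      obtain ⟨n, hn⟩ := hY _ h
      obtain ⟨z, hz, hzY⟩ := hall n
      refine hzY (hn z ?_)
      have hl : R.len (c.π.f (y.pos n)) = n := by rw [c.π.len_f, y.len_pos]
      rw [hl] at hz
      exact hz
    · intro h
      by_contra hy
      refine h fun n => ⟨c.π.play y, ?_, hy⟩
      have hl : R.len (c.π.f (y.pos n)) = n := by rw [c.π.len_f, y.len_pos]
      rw [hl]; rfl
  refine ⟨S, c, ?_, ?_⟩
  · intro y hy
    refine ⟨2 * k + 2, fun y' hy' => ?_⟩
    have h1 := (key y).1 hy
    rw [← hy'] at h1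
    exact (key y').2 h1
  · intro y hy
    refine ⟨2 * k + 2, fun y' hy' => ?_⟩
    intro hy2
    have h1 := (key y').1 hy2
    rw [hy'] at h1
    exact hy ((key y).2 h1)

theorem uuOpen (hU : Unravel_Stmt.{u}) : UUOpen_Stmt.{u} := by
  intro T X hX R g k
  exact exists_cov_of_isOp hU (IsOp.preimage hX g) k

/-! ## Countable unions -/

section Union

variable {T : GTree.{u}} {X : ℕ → Set T.Play}

/-- trees with a map to T, unravelling X 0, X 1, ... successively. -/
noncomputable def stage (hX : ∀ i, UU (X i)) (R : GTree.{u}) (g : Hom R T) (k : ℕ) :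
    ℕ → (Σ R : GTree.{u}, Hom R T)
  | 0 => ⟨R, g⟩
  | i + 1 =>
    let P := stage hX R g k i
    ⟨(hX i P.1 P.2 (k + i)).choose,
      P.2.comp (hX i P.1 P.2 (k + i)).choose_spec.choose.π⟩

/-- the covering between consecutive stages. -/
noncomputable def stageCov (hX : ∀ i, UU (X i)) (R : GTree.{u}) (g : Hom R T) (k : ℕ) (i : ℕ) :
    Cov (k + i) (stage hX R g k (i + 1)).1 (stage hX R g k i).1 :=
  (hX i (stage hX R g k i).1 (stage hX R g k i).2 (k + i)).choose_spec.choose

theorem stage_succ_snd (hX : ∀ i, UU (X i)) (R : GTree.{u}) (g : Hom R T) (k : ℕ) (i : ℕ) :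
    (stage hX R g k (i + 1)).2 = (stage hX R g k i).2.comp (stageCov hX R g k i).π := rfl

theorem stage_clop (hX : ∀ i, UU (X i)) (R : GTree.{u}) (g : Hom R T) (k : ℕ) (i : ℕ) :
    IsClop {y : (stage hX R g k (i + 1)).1.Play |
      (stage hX R g k i).2.play ((stageCov hX R g k i).π.play y) ∈ X i} :=
  (hX i (stage hX R g k i).1 (stage hX R g k i).2 (k + i)).choose_spec.choose_spec

end Union

theorem uuUnion (hU : Unravel_Stmt.{u}) (hL : InvLim_Stmt.{u}) : UUUnion_Stmt.{u} := by
  intro T X hX R g k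
  obtain ⟨S, d, h, h0, hh⟩ := hL k (fun i => (stage hX R g k i).1) (stageCov hX R g k)
  have hg : ∀ i, (stage hX R g k i).2.comp (h i) = g.comp d.π := by
    intro i
    induction i with
    | zero => rw [h0]; rfl
    | succ i ih =>
      rw [← ih, ← hh i]; rfl
  have hop : IsOp {y : S.Play | g.play (d.π.play y) ∈ ⋃ i, X i} := by
    have : {y : S.Play | g.play (d.π.play y) ∈ ⋃ i, X i}
        = ⋃ i, {y : S.Play | g.play (d.π.play y) ∈ X i} := by
      ext y; simp
    rw [this]
    refine IsOp.iUnion fun i => ?_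
    have h1 := (IsClop.preimage (stage_clop hX R g k i) (h (i + 1))).1
    have h2 : {y : S.Play | g.play (d.π.play y) ∈ X i} = {y : S.Play | (h (i + 1)).play y ∈
        {y : (stage hX R g k (i + 1)).1.Play |
          (stage hX R g k i).2.play ((stageCov hX R g k i).π.play y) ∈ X i}} := by
      ext y
      have h3 : g.play (d.π.play y)
          = (stage hX R g k i).2.play ((stageCov hX R g k i).π.play ((h (i + 1)).play y)) := by
        have h4 := congrArg (fun a => Hom.play a y) (hg (i + 1))
        exact h4.symm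
      simp only [Set.mem_ofPred_eq]
      rw [h3]
    rw [h2]; exact h1
  obtain ⟨S', c', hc'⟩ := exists_cov_of_isOp hU hop k
  exact ⟨S', d.comp c', hc'⟩

/-! ## Determinacy -/

/-- prefixes of positions: the root below a position. -/
theorem exists_root {T : GTree.{u}} (p : T.Pos) : ∃ r : T.Pos, T.len r = 0 := by
  have : ∀ n (p : T.Pos), T.len p ≤ n → ∃ r : T.Pos, T.len r = 0 := by
    intro n
    induction n with
    | zero => intro p hp; exact ⟨p, by omega⟩
    | succ n ih => intro p hp; exact ih (T.par p) (by rw [T.len_par]; omega)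
  exact this _ p le_rfl

theorem exists_strat (T : GTree.{u}) : Nonempty T.Strat :=
  ⟨⟨fun p => (T.exists_child p).choose, fun p => (T.exists_child p).choose_spec⟩⟩

/-- some strategy of the other player avoids U for ever, starting from a position which is not
forced (helper lemma: there is a child which is not forced). -/
theorem exists_child_avoid {T : GTree.{u}} {b : Bool} {U : Set T.Pos} {p : T.Pos}
    (h : ¬ T.Win b U p) : (Turn b (T.len p) → ∀ c, T.Child p c → ¬ T.Win b U c) ∧
      ∃ c, T.Child p c ∧ ¬ T.Win b U c := by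
  classical
  -- a child of a forced position for the mover
  have hmine : Turn b (T.len p) → ∀ c, T.Child p c → ¬ T.Win b U c := by
    rintro ht c hc ⟨s, hs⟩
    apply h
    refine ⟨⟨Function.update s.move p c, ?_⟩, ?_⟩
    · intro q
      by_cases hq : q = p
      · subst hq; rw [Function.update_self]; exact hc
      · rw [Function.update_of_ne hq]; exact s.child q
    · intro x hx hf
      have hxc : x.pos (T.len c) = c := by
        rw [hc.2, hf (T.len p) le_rfl ht, hx]
        exact Function.update_self (β := fun _ => T.Pos) p c s.move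
      obtain ⟨n, hn, hU⟩ := hs x hxc (by
        intro n hn htn
        rw [hf n (by have := hc.2; omega) htn]
        refine Function.update_of_ne (β := fun _ => T.Pos) ?_ c s.move
        intro he
        have h1 := congrArg T.len he
        rw [x.len_pos] at h1
        have := hc.2
        omega)
      exact ⟨n, by have := hc.2; omega, hU⟩
  refine ⟨hmine, ?_⟩
  by_contra hcon
  push Not at hcon
  by_cases ht : Turn b (T.len p)
  · obtain ⟨c, hc⟩ := T.exists_child p
    exact hmine ht c hc (hcon c hc)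
  have hcon' : ∀ c, T.Child p c → ∃ s : T.Strat, ∀ x : T.Play, x.pos (T.len c) = c →
      FollowsFrom (T.len c) b s x → ∃ n, T.len c ≤ n ∧ x.pos n ∈ U := hcon
  have := exists_strat T
  choose! s hs using hcon'
  -- the prefix of length len p + 1
  let pr : T.Pos → T.Pos := fun q => (T.par)^[T.len q - (T.len p + 1)] q
  have hpr : ∀ (x : T.Play) n, T.len p + 1 ≤ n → pr (x.pos n) = x.pos (T.len p + 1) := by
    intro x n hn
    obtain ⟨d, rfl⟩ := Nat.exists_eq_add_of_le hn
    show (T.par)^[T.len (x.pos (T.len p + 1 + d)) - (T.len p + 1)] _ = _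
    rw [x.len_pos, Nat.add_sub_cancel_left]
    induction d with
    | zero => rfl
    | succ d ih =>
      rw [Function.iterate_succ_apply, ← Nat.add_assoc, x.par_pos]
      exact ih (by omega)
  refine h ⟨⟨fun q => (s (pr q)).move q, fun q => (s _).child q⟩, ?_⟩
  intro x hx hf
  have hc : T.Child p (x.pos (T.len p + 1)) := by
    refine ⟨?_, x.len_pos _⟩
    rw [x.par_pos, hx]
  obtain ⟨n, hn, hU⟩ := hs _ hc x (by rw [x.len_pos]) (by
    intro n hn htn
    rw [x.len_pos] at hn
    rw [hf n (by omega) htn]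
    show (s (pr (x.pos n))).move (x.pos n) = _
    rw [hpr x n hn])
  rw [x.len_pos] at hn
  exact ⟨n, by omega, hU⟩

/-- Gale-Stewart: the opponent can avoid U for ever from the positions which are not forced. -/
theorem exists_avoid {T : GTree.{u}} (b : Bool) (U : Set T.Pos) :
    ∃ s : T.Strat, ∀ x : T.Play, ∀ m, ¬ T.Win b U (x.pos m) → FollowsFrom m (!b) s x →
      ∀ n, m ≤ n → ¬ T.Win b U (x.pos n) := by
  classical
  refine ⟨⟨fun p => if h : ¬ T.Win b U p then (exists_child_avoid h).2.choose
    else (T.exists_child p).choose, ?_⟩, ?_⟩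
  · intro p
    by_cases h : ¬ T.Win b U p
    · rw [dif_pos h]; exact (exists_child_avoid h).2.choose_spec.1
    · rw [dif_neg h]; exact (T.exists_child p).choose_spec
  · intro x m hm hf n hn
    induction n, hn using Nat.le_induction with
    | base => exact hm
    | succ n hn ih =>
      by_cases ht : Turn b n
      · exact (exists_child_avoid ih).1 (by rw [x.len_pos]; exact ht) _
          ⟨x.par_pos n, by rw [x.len_pos, x.len_pos]⟩
      · have ht' : Turn (!b) n := by
          unfold Turn at ht ⊢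
          cases b <;> simp at ht ⊢ <;> omega
        rw [hf n hn ht']
        show ¬ T.Win b U (if h : ¬ T.Win b U (x.pos n) then (exists_child_avoid h).2.choose
          else _)
        rw [dif_pos ih]
        exact (exists_child_avoid ih).2.choose_spec.2

/-- open determinacy. -/
theorem openDet (S : GTree.{u}) (Y : Set S.Play) (hr : ∀ p q, S.len p = 0 → S.len q = 0 → p = q)
    (hY : IsOp Y) : (∃ s : S.Strat, ∀ x, Follows false s x → x ∈ Y) ∨
      (∃ s : S.Strat, ∀ x, Follows true s x → x ∉ Y) := by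
  obtain ⟨s0⟩ := exists_strat S
  by_cases hne : ∃ r : S.Pos, S.len r = 0
  swap
  · exact Or.inl ⟨s0, fun x _ => absurd ⟨x.pos 0, x.len_pos 0⟩ hne⟩
  obtain ⟨r, hlr⟩ := hne
  have hx0 : ∀ x : S.Play, x.pos 0 = r := fun x => hr _ _ (x.len_pos 0) hlr
  let U : Set S.Pos := {p | ∀ y : S.Play, y.pos (S.len p) = p → y ∈ Y}
  by_cases hw : S.Win false U r
  · left
    obtain ⟨s, hs⟩ := hw
    refine ⟨s, fun x hx => ?_⟩
    rw [hlr] at hs
    obtain ⟨n, _, hn⟩ := hs x (hx0 x) (fun n _ ht => hx n ht)
    exact hn x (by rw [x.len_pos])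
  · right
    obtain ⟨s, hs⟩ := exists_avoid false U
    refine ⟨s, fun x hx hxY => ?_⟩
    obtain ⟨n, hn⟩ := hY x hxY
    have h1 : ¬ S.Win false U (x.pos n) :=
      hs x 0 (by rw [hx0]; exact hw) (fun n _ ht => hx n ht) n (Nat.zero_le n)
    apply h1
    refine ⟨s0, fun y hy _ => ⟨S.len (x.pos n), le_rfl, ?_⟩⟩
    rw [hy]
    intro z hz
    refine hn z ?_
    rw [x.len_pos] at hz
    exact hz

theorem determined : Determined_Stmt.{u} := by
  intro T X hroot hX
  obtain ⟨S, c, hc⟩ := hX T (Hom.id T) 0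
  have hSroot : ∀ p q, S.len p = 0 → S.len q = 0 → p = q := by
    intro p q hp hq
    refine c.low_inj p q (by omega) (hroot _ _ ?_ ?_)
    · rw [c.π.len_f]; exact hp
    · rw [c.π.len_f]; exact hq
  rcases openDet S _ hSroot hc.1 with ⟨s, hs⟩ | ⟨s, hs⟩
  · left
    refine ⟨c.φ false s, fun x hx => ?_⟩
    obtain ⟨y, rfl, hf⟩ := c.lift false s x hx
    exact hs y hf
  · right
    refine ⟨c.φ true s, fun x hx => ?_⟩
    obtain ⟨y, rfl, hf⟩ := c.lift true s x hx
    exact hs y hf

end Pool.Agent.Det
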