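import Pool.Agent.Det.Tree

/-!
# Transfer of strategies of player I from the auxiliary tree
-/

set_option autoImplicit false

namespace Pool.Agent.Det

open GTree

universe u

namespace UI

variable {T : GTree.{u}} {k : ℕ} {C : Set T.Pos} {hC : ∀ p ∈ C, T.par p ∈ C}

/-- the low position below `p` -/
def base (T : GTree.{u}) (k : ℕ) (C : Set T.Pos) (p : T.Pos) : SPos T k C :=
  SPos.lo (T.pre (2 * k) p) (by rw [len_pre]; omega)

open Classical in
/-- the answer of `s` at the position `(p, Q, o)` (or `p` if this is not a position). -/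
noncomputable def stp (s : (STree T k C hC).Strat) (p : T.Pos) (Q : Set T.Pos) (o : Opt T.Pos) :
    T.Pos :=
  if h : ∃ q : SPos T k C, q.p = p ∧ q.Q = Q ∧ q.o = o then (s.move h.choose).p else p

theorem stp_eq (s : (STree T k C hC).Strat) (q : SPos T k C) {p : T.Pos} {Q : Set T.Pos}
    {o : Opt T.Pos} (h1 : q.p = p) (h2 : q.Q = Q) (h3 : q.o = o) :
    stp s p Q o = (s.move q).p := by
  have h : ∃ q : SPos T k C, q.p = p ∧ q.Q = Q ∧ q.o = o := ⟨q, h1, h2, h3⟩
  unfold stp
  rw [dif_pos h]
  have : h.choose = q := SPos.ext (h.choose_spec.1.trans h1.symm)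
    (h.choose_spec.2.1.trans h2.symm) (h.choose_spec.2.2.trans h3.symm)
  rw [this]

theorem stp_congr (s s' : (STree T k C hC).Strat) (n : ℕ)
    (h : ∀ q, (STree T k C hC).len q ≤ n → s.move q = s'.move q) (p : T.Pos) (hp : T.len p ≤ n)
    (Q : Set T.Pos) (o : Opt T.Pos) : stp s p Q o = stp s' p Q o := by
  unfold stp
  by_cases hex : ∃ q : SPos T k C, q.p = p ∧ q.Q = Q ∧ q.o = o
  · rw [dif_pos hex, dif_pos hex]
    refine congrArg SPos.p (h _ ?_)
    show T.len hex.choose.p ≤ n
    rw [hex.choose_spec.1]; exact hp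
  · rw [dif_neg hex, dif_neg hex]

/-- exits -/
def U (k : ℕ) (C Q : Set T.Pos) : Set T.Pos :=
  {u | 2 * k + 2 ≤ T.len u ∧ T.len u % 2 = 0 ∧ u ∈ Q ∧ u ∉ C}

/-- positions where no exit has been forced -/
def Q2 (k : ℕ) (C Q : Set T.Pos) : Set T.Pos :=
  {v | v ∈ Q ∧ 2 * k + 2 ≤ T.len v ∧ ∀ m, 2 * k + 2 ≤ m → ¬ T.Win false (U k C Q) (T.pre m v)}

open Classical in
/-- a winning strategy at `p`, if there is one -/
noncomputable def ws (b : Bool) (U : Set T.Pos) (p : T.Pos) : T.Strat :=
  if h : T.Win b U p then winStrat h else default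

theorem ws_spec {b : Bool} {U : Set T.Pos} {p : T.Pos} (h : T.Win b U p) (x : T.Play)
    (hx : x.pos (T.len p) = p) (hf : FollowsFrom (T.len p) b (ws b U p) x) :
    ∃ n, T.len p ≤ n ∧ x.pos n ∈ U := by
  unfold ws at hf
  rw [dif_pos h] at hf
  exact winStrat_spec h x hx hf

open Classical in
/-- what to do at `p` -/
noncomputable def pick (k : ℕ) (C Q : Set T.Pos) (p : T.Pos) : T.Pos ⊕ Opt T.Pos :=
  if hA : ∃ m, 2 * k + 2 ≤ m ∧ T.pre m p ∈ U k C Q then
    Sum.inr (Opt.out (T.pre (Nat.find hA) p))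
  else if hB : ∃ m, 2 * k + 2 ≤ m ∧ T.Win false (U k C Q) (T.pre m p) then
    Sum.inl ((ws false (U k C Q) (T.pre (Nat.find hB) p)).move p)
  else Sum.inr (Opt.stay (Q2 k C Q))

open Classical in
/-- the rule of player I -/
noncomputable def rule (s : (STree T k C hC).Strat) (p : T.Pos) : T.Pos :=
  if T.len p ≤ 2 * k then (s.move (base T k C p)).p else
    match pick k C (s.move (base T k C p)).Q p with
    | Sum.inl v => v
    | Sum.inr o => stp s p (s.move (base T k C p)).Q o

theorem rule_congr (s s' : (STree T k C hC).Strat) (n : ℕ)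
    (h : ∀ q, (STree T k C hC).len q ≤ n → s.move q = s'.move q) (p : T.Pos) (hp : T.len p ≤ n) :
    rule s p = rule s' p := by
  have h1 : s.move (base T k C p) = s'.move (base T k C p) := by
    apply h
    show T.len (T.pre (2 * k) p) ≤ n
    rw [len_pre]; omega
  unfold rule
  rw [h1]
  split_ifs
  · rfl
  · cases pick k C (s'.move (base T k C p)).Q p with
    | inl v => rfl
    | inr o => exact stp_congr s s' n h p hp _ o

/-- the transferred strategy -/
noncomputable def phi (s : (STree T k C hC).Strat) : T.Strat := Strat.of (rule s)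

theorem phi_move_eq (s : (STree T k C hC).Strat) {p v : T.Pos} (h1 : rule s p = v)
    (h2 : T.Child p v) : (phi s).move p = v := by
  subst h1
  exact Strat.of_move h2

theorem phi_congr (s s' : (STree T k C hC).Strat) (n : ℕ)
    (h : ∀ q, (STree T k C hC).len q ≤ n → s.move q = s'.move q) (p : T.Pos) (hp : T.len p ≤ n) :
    (phi s).move p = (phi s').move p := by
  have h1 := rule_congr s s' n h p hp
  have h2 : ∀ (r r' : T.Pos → T.Pos), r p = r' p →
      (Strat.of r).move p = (Strat.of r').move p := by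
    intro r r' he
    by_cases hc : T.Child p (r p)
    · rw [Strat.of_move hc, Strat.of_move (by rw [← he]; exact hc), he]
    · simp only [Strat.of, hc, if_false]
      rw [if_neg (by rw [← he]; exact hc)]
  exact h2 _ _ h1

theorem phi_low (s : (STree T k C hC).Strat) (q : SPos T k C) (hq : T.len q.p ≤ 2 * k) :
    (phi s).move q.p = (s.move q).p := by
  have hb : base T k C q.p = q := by
    apply SPos.ext
    · exact pre_of_ge hq
    · exact (q.low hq).symm
    · exact (q.lowo (by omega)).symm
  apply phi_move_eq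
  · unfold rule
    rw [if_pos hq, hb]
  · exact schild (s.child q)

theorem isQ2 (hC : ∀ p ∈ C, T.par p ∈ C) {Q : Set T.Pos} (hQ : IsQ1 T k Q) :
    IsQ2 T k C Q (Q2 k C Q) := by
  have hstep : ∀ v w, v ∈ Q2 k C Q → T.Child v w → w ∈ Q → ¬ T.Win false (U k C Q) w →
      w ∈ Q2 k C Q := by
    intro v w hv hw hwQ hnw
    have hl := hw.2
    refine ⟨hwQ, by have := hv.2.1; omega, ?_⟩
    intro m hm
    by_cases hmv : m ≤ T.len v
    · rw [Child.pre_eq hw hmv]; exact hv.2.2 m hm
    · rw [pre_of_ge (by omega)]; exact hnw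
  have hself : ∀ v, v ∈ Q2 k C Q → ¬ T.Win false (U k C Q) v := by
    intro v hv
    have := hv.2.2 (T.len v) hv.2.1
    rwa [pre_len] at this
  refine ⟨fun p hp => hp.2.1, fun p hp => hp.1, ?_, ?_, ?_, ?_⟩
  · intro v hv
    by_contra hvC
    rcases Nat.mod_two_eq_zero_or_one (T.len v) with h | h
    · exact hself v hv (win_of_mem ⟨hv.2.1, h, hv.1, hvC⟩)
    · refine hself v hv (win_of_children ?_)
      intro w hw
      refine win_of_mem ⟨?_, ?_, hQ.opp v hv.1 h w hw, ?_⟩
      · rw [hw.2]; have := hv.2.1; omega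
      · rw [hw.2]; omega
      · intro hwC
        have := hC w hwC
        rw [hw.1] at this
        exact hvC this
  · intro v hv hl
    refine ⟨hQ.par_mem v hv.1 (by omega), by rw [T.len_par]; omega, ?_⟩
    intro m hm
    by_cases hmv : m < T.len v
    · rw [pre_par hmv]; exact hv.2.2 m hm
    · rw [pre_of_ge (by rw [T.len_par]; omega), ← pre_pred (by omega)]
      exact hv.2.2 _ (by omega)
  · intro v hv h
    obtain ⟨w, hw, hnw⟩ := exists_not_win_child (hself v hv)
    exact ⟨w, hw, hstep v w hv hw (hQ.opp v hv.1 h w hw) hnw⟩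
  · intro v hv h w hw hwQ
    exact hstep v w hv hw hwQ (not_win_child (hself v hv) h hw)

end UI

open UI in
theorem unravelI : UnravelI_Stmt.{u} := by
  classical
  intro T k C hC
  refine ⟨phi, phi_congr, fun s q hq => phi_low s q (le_of_lt hq), ?_⟩
  intro s x hx
  -- the choice of I at length 2k
  set a : SPos T k C := s.move (base T k C (x.pos (2 * k))) with ha
  have hbase : ∀ n, 2 * k ≤ n → base T k C (x.pos n) = base T k C (x.pos (2 * k)) := by
    intro n hn
    apply SPos.ext
    · show T.pre (2 * k) (x.pos n) = T.pre (2 * k) (x.pos (2 * k))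
      rw [x.pre_pos hn, x.pre_pos le_rfl]
    · rfl
    · rfl
  have hbp : (base T k C (x.pos (2 * k))).p = x.pos (2 * k) := x.pre_pos le_rfl
  have hap : x.pos (2 * k + 1) = a.p := by
    rw [hx (2 * k) (by show 2 * k % 2 = 0; omega)]
    have := phi_low s (base T k C (x.pos (2 * k))) (by rw [hbp, x.len_pos])
    rw [hbp] at this
    exact this
  have hal : T.len a.p = 2 * k + 1 := by rw [← hap, x.len_pos]
  have haQ := a.mid (by omega)
  rw [pre_of_ge (by omega)] at haQ
  set Q := a.Q with hQdef
  have hQ : IsQ1 T k Q := haQ.1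
  have hxQ : x.pos (2 * k + 1) ∈ Q := by rw [hap]; exact haQ.2
  have hrule : ∀ n, 2 * k + 2 ≤ n → rule s (x.pos n) =
      match pick k C Q (x.pos n) with
      | Sum.inl v => v
      | Sum.inr o => stp s (x.pos n) Q o := by
    intro n hn
    unfold rule
    rw [if_neg (by rw [x.len_pos]; omega), hbase n (by omega)]
  -- following at low lengths
  have hfol : ∀ (o : Opt T.Pos) (ho : ∀ n, 2 * k + 2 ≤ n → ValidOpt T k C Q (x.pos n) o),
      (∀ n, 2 * k + 2 ≤ n → n % 2 = 0 →
        x.pos (n + 1) = (s.move ((liftPlay hC x Q hQ o ho).pos n)).p) →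
      Follows false s (liftPlay hC x Q hQ o ho) := by
    intro o ho hhi n hn
    have hn' : n % 2 = 0 := hn
    rcases Nat.lt_trichotomy n (2 * k) with h | h | h
    · -- low
      have h1 : (liftPlay hC x Q hQ o ho).pos n = SPos.lo (x.pos n) (by rw [x.len_pos]; omega) :=
        liftPlay_lo x Q hQ o ho n (by omega)
      refine SHom_low_inj _ _ ?_ ?_
      · show T.len (x.pos (n + 1)) ≤ 2 * k
        rw [x.len_pos]; omega
      · show x.pos (n + 1) = (s.move ((liftPlay hC x Q hQ o ho).pos n)).p
        exact (hx n hn).trans (phi_low s ((liftPlay hC x Q hQ o ho).pos n) (by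
          show T.len (x.pos n) ≤ 2 * k
          rw [x.len_pos]; omega))
    · subst h
      have h1 : (liftPlay hC x Q hQ o ho).pos (2 * k) = base T k C (x.pos (2 * k)) := by
        rw [liftPlay_lo x Q hQ o ho (2 * k) le_rfl]
        apply SPos.ext
        · exact (x.pre_pos le_rfl).symm
        · rfl
        · rfl
      rw [h1, liftPlay_mi x Q hQ o ho hxQ]
      apply SPos.ext
      · exact hap
      · rfl
      · exact (a.lowo (by omega)).symm
    · have h2 : 2 * k + 2 ≤ n := by omega
      have h3 := schild_hi (s.child ((liftPlay hC x Q hQ o ho).pos n)) (by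
        show 2 * k + 2 ≤ T.len (x.pos n)
        rw [x.len_pos]; exact h2)
      apply SPos.ext
      · exact hhi n h2 hn'
      · rw [h3.2.1, liftPlay_hi x Q hQ o ho n h2, liftPlay_hi x Q hQ o ho (n + 1) (by omega)]
        rfl
      · rw [h3.2.2, liftPlay_hi x Q hQ o ho n h2, liftPlay_hi x Q hQ o ho (n + 1) (by omega)]
        rfl
  by_cases hex : ∃ m, 2 * k + 2 ≤ m ∧ x.pos m ∈ U k C Q
  · -- the play reaches an exit
    have hm1 := (Nat.find_spec hex).1
    have hm2 := (Nat.find_spec hex).2
    have hmin : ∀ j, 2 * k + 2 ≤ j → x.pos j ∈ U k C Q → Nat.find hex ≤ j :=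
      fun j h1 h2 => Nat.find_min' hex ⟨h1, h2⟩
    set m := Nat.find hex with hm
    have ho : ∀ n, 2 * k + 2 ≤ n → ValidOpt T k C Q (x.pos n) (Opt.out (x.pos m)) := by
      intro n hn
      refine ⟨hm2.1, hm2.2.1, hm2.2.2.1, hm2.2.2.2, ?_⟩
      unfold Compat
      rw [x.len_pos, x.len_pos]
      rcases le_total m n with h | h
      · rw [x.pre_pos h, pre_of_ge (by rw [x.len_pos]; exact h)]
      · rw [x.pre_pos h, pre_of_ge (by rw [x.len_pos]; exact h)]
    refine ⟨liftPlay hC x Q hQ _ ho, liftPlay_proj x Q hQ _ ho, hfol _ ho ?_⟩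
    intro n hn hn2
    have hpos := liftPlay_hi (hC := hC) x Q hQ _ ho n hn
    have hch := s.child ((liftPlay hC x Q hQ _ ho).pos n)
    have h3 := schild_hi hch (by
      show 2 * k + 2 ≤ T.len (x.pos n)
      rw [x.len_pos]; exact hn)
    rcases Nat.lt_or_ge n m with h | h
    · have ho' : (s.move ((liftPlay hC x Q hQ _ ho).pos n)).o = Opt.out (x.pos m) := by
        rw [h3.2.2, hpos]; rfl
      have h4 := schild_out hch ho' (by
        show T.len (x.pos n) < T.len (x.pos m)
        rw [x.len_pos, x.len_pos]; exact h)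
      rw [h4]
      show x.pos (n + 1) = T.pre (T.len (x.pos n) + 1) (x.pos m)
      rw [x.len_pos, x.pre_pos (by omega)]
    · rw [hx n hn2]
      apply phi_move_eq
      · rw [hrule n hn]
        have hA : ∃ j, 2 * k + 2 ≤ j ∧ T.pre j (x.pos n) ∈ U k C Q :=
          ⟨m, hm1, by rw [x.pre_pos h]; exact hm2⟩
        have hfind : Nat.find hA = m := by
          apply le_antisymm
          · exact Nat.find_min' hA ⟨hm1, by rw [x.pre_pos h]; exact hm2⟩
          · by_contra hlt
            push Not at hlt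
            have h5 := Nat.find_spec hA
            rw [x.pre_pos (by omega)] at h5
            have := hmin _ h5.1 h5.2
            omega
        unfold pick
        rw [dif_pos hA, hfind, x.pre_pos h]
        exact stp_eq s _ (by rw [hpos]; rfl) (by rw [hpos]; rfl) (by rw [hpos]; rfl)
      · exact h3.1
  · -- the play never reaches an exit
    have hnA : ∀ n, 2 * k + 2 ≤ n → ¬ ∃ j, 2 * k + 2 ≤ j ∧ T.pre j (x.pos n) ∈ U k C Q := by
      rintro n hn ⟨j, hj, hjU⟩
      rcases le_total j n with h | h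
      · rw [x.pre_pos h] at hjU; exact hex ⟨j, hj, hjU⟩
      · rw [pre_of_ge (by rw [x.len_pos]; exact h)] at hjU; exact hex ⟨n, hn, hjU⟩
    have hnW : ¬ ∃ m, 2 * k + 2 ≤ m ∧ T.Win false (U k C Q) (x.pos m) := by
      intro hW
      have hm1 := (Nat.find_spec hW).1
      have hm2 := (Nat.find_spec hW).2
      have hmin : ∀ j, 2 * k + 2 ≤ j → T.Win false (U k C Q) (x.pos j) → Nat.find hW ≤ j :=
        fun j h1 h2 => Nat.find_min' hW ⟨h1, h2⟩
      set m := Nat.find hW with hm
      obtain ⟨n, hn, hnU⟩ := ws_spec hm2 x (by rw [x.len_pos]) (by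
        rw [x.len_pos]
        intro n hn ht
        rw [hx n ht]
        apply phi_move_eq
        · rw [hrule n (by omega)]
          have hB : ∃ j, 2 * k + 2 ≤ j ∧ T.Win false (U k C Q) (T.pre j (x.pos n)) :=
            ⟨m, hm1, by rw [x.pre_pos hn]; exact hm2⟩
          have hfind : Nat.find hB = m := by
            apply le_antisymm
            · exact Nat.find_min' hB ⟨hm1, by rw [x.pre_pos hn]; exact hm2⟩
            · by_contra hlt
              push Not at hlt
              have h5 := Nat.find_spec hB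
              rw [x.pre_pos (by omega)] at h5
              have := hmin _ h5.1 h5.2
              omega
          unfold pick
          rw [dif_neg (hnA n (by omega)), dif_pos hB, hfind, x.pre_pos hn]
        · exact (ws false (U k C Q) (x.pos m)).child _)
      rw [x.len_pos] at hn
      exact hex ⟨n, by omega, hnU⟩
    have hnB : ∀ n, 2 * k + 2 ≤ n →
        ¬ ∃ j, 2 * k + 2 ≤ j ∧ T.Win false (U k C Q) (T.pre j (x.pos n)) := by
      rintro n hn ⟨j, hj, hjU⟩
      rcases le_total j n with h | h
      · rw [x.pre_pos h] at hjU; exact hnW ⟨j, hj, hjU⟩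
      · rw [pre_of_ge (by rw [x.len_pos]; exact h)] at hjU; exact hnW ⟨n, hn, hjU⟩
    have hQ2 := isQ2 (k := k) hC hQ
    have hmemQ2 : ∀ n, 2 * k + 2 ≤ n → x.pos n ∈ Q → x.pos n ∈ Q2 k C Q := by
      intro n hn hnQ
      refine ⟨hnQ, by rw [x.len_pos]; exact hn, ?_⟩
      intro m hm hw
      exact hnB n hn ⟨m, hm, hw⟩
    -- the answer of s
    have hmove : ∀ n (hn : 2 * k + 2 ≤ n) (hnQ : x.pos n ∈ Q2 k C Q), n % 2 = 0 →
        x.pos (n + 1) = (s.move (SPos.up (x.pos n) (by rw [x.len_pos]; exact hn) Q hQ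
          (Opt.stay (Q2 k C Q)) ⟨hQ2, hnQ⟩)).p := by
      intro n hn hnQ hn2
      rw [hx n hn2]
      apply phi_move_eq
      · rw [hrule n hn]
        unfold pick
        rw [dif_neg (hnA n hn), dif_neg (hnB n hn)]
        exact stp_eq s _ rfl rfl rfl
      · exact schild (s.child _)
    have hall : ∀ n, 2 * k + 1 ≤ n → x.pos n ∈ Q := by
      intro n hn
      induction n, hn using Nat.le_induction with
      | base => exact hxQ
      | succ n hn ih =>
        rcases Nat.mod_two_eq_zero_or_one n with h | h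
        · have hn2 : 2 * k + 2 ≤ n := by omega
          have hnQ := hmemQ2 n hn2 ih
          rw [hmove n hn2 hnQ h]
          have hch := s.child (SPos.up (x.pos n) (by rw [x.len_pos]; exact hn2) Q hQ
            (Opt.stay (Q2 k C Q)) ⟨hQ2, hnQ⟩)
          have h3 := schild_hi hch (by
            show 2 * k + 2 ≤ T.len (x.pos n)
            rw [x.len_pos]; exact hn2)
          have h4 := SPos.hi _ (show 2 * k + 2 ≤ T.len (s.move (SPos.up (x.pos n) (by
            rw [x.len_pos]; exact hn2) Q hQ (Opt.stay (Q2 k C Q)) ⟨hQ2, hnQ⟩)).p by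
              rw [h3.1.2]
              show 2 * k + 2 ≤ T.len (x.pos n) + 1
              rw [x.len_pos]; omega)
          rw [h3.2.1, h3.2.2] at h4
          exact hQ2.sub h4.2
        · exact hQ.opp _ ih (by rw [x.len_pos]; exact h) _ (x.child n)
    have ho : ∀ n, 2 * k + 2 ≤ n → ValidOpt T k C Q (x.pos n) (Opt.stay (Q2 k C Q)) :=
      fun n hn => ⟨hQ2, hmemQ2 n hn (hall n (by omega))⟩
    refine ⟨liftPlay hC x Q hQ _ ho, liftPlay_proj x Q hQ _ ho, hfol _ ho ?_⟩
    intro n hn hn2
    rw [liftPlay_hi x Q hQ _ ho n hn]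
    exact hmove n hn (hmemQ2 n hn (hall n (by omega))) hn2

end Pool.Agent.Det
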