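import Pool.Agent.Det.Basic

/-!
# The switching strategy

Shared by both halves of the unravelling: from length N on play by rule B as long as no prefix is
in Win b U; once a prefix is in Win b U play the winning strategy until U is reached; then use the
rule A u, where u is the first prefix in U.
-/

set_option autoImplicit false

namespace Pool.Agent.Det

universe u

namespace GTree

variable {T : GTree.{u}}

/-- The switching rule. -/
noncomputable def sw (b : Bool) (U : Set T.Pos) (N : ℕ) (A : T.Pos → T.Pos → T.Pos)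
    (B : T.Pos → T.Pos) (p : T.Pos) : T.Pos := by
  classical
  exact
    if h : ∃ m, N ≤ m ∧ m ≤ T.len p ∧ T.pre m p ∈ U then A (T.pre (Nat.find h) p) p
    else if h : ∃ m, N ≤ m ∧ m ≤ T.len p ∧ T.Win b U (T.pre m p) then
      (winStrat (Nat.find_spec h).2.2).move p
    else B p

/-- The outcome of the switching rule. -/
theorem sw_spec {b : Bool} {U : Set T.Pos} {N : ℕ} {A : T.Pos → T.Pos → T.Pos}
    {B : T.Pos → T.Pos} (x : T.Play)
    (hx : ∀ n, N ≤ n → Turn b n → x.pos (n + 1) = sw b U N A B (x.pos n)) :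
    (∀ n, N ≤ n → ¬ T.Win b U (x.pos n) ∧ (Turn b n → x.pos (n + 1) = B (x.pos n))) ∨
    (∃ m, N ≤ m ∧ x.pos m ∈ U ∧ (∀ j, N ≤ j → j < m → x.pos j ∉ U) ∧
      ∀ n, m ≤ n → Turn b n → x.pos (n + 1) = A (x.pos m) (x.pos n)) := by
  classical
  by_cases hU : ∃ m, N ≤ m ∧ x.pos m ∈ U
  · right
    refine ⟨Nat.find hU, (Nat.find_spec hU).1, (Nat.find_spec hU).2, ?_, ?_⟩
    · intro j hj hjm hjU
      exact Nat.find_min hU hjm ⟨hj, hjU⟩
    · intro n hn ht
      rw [hx n (le_trans (Nat.find_spec hU).1 hn) ht]
      have h : ∃ m, N ≤ m ∧ m ≤ T.len (x.pos n) ∧ T.pre m (x.pos n) ∈ U :=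
        ⟨Nat.find hU, (Nat.find_spec hU).1, by rw [x.len_pos]; exact hn, by
          rw [x.pre_pos hn]; exact (Nat.find_spec hU).2⟩
      have heq : Nat.find h = Nat.find hU := by
        apply le_antisymm
        · apply Nat.find_min' h
          exact ⟨(Nat.find_spec hU).1, by rw [x.len_pos]; exact hn, by
            rw [x.pre_pos hn]; exact (Nat.find_spec hU).2⟩
        · apply Nat.find_min' hU
          have h3 := Nat.find_spec h
          refine ⟨h3.1, ?_⟩
          have h4 := h3.2.2
          have h5 : Nat.find h ≤ n := h3.2.1.trans (x.len_pos n).le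
          rwa [x.pre_pos h5] at h4
      unfold sw
      rw [dif_pos h, heq, x.pre_pos hn]
  · left
    push Not at hU
    have hno : ∀ n, ¬ ∃ m, N ≤ m ∧ m ≤ T.len (x.pos n) ∧ T.pre m (x.pos n) ∈ U := by
      rintro n ⟨m, h1, h2, h3⟩
      rw [x.len_pos] at h2
      rw [x.pre_pos h2] at h3
      exact hU m h1 h3
    have hW : ∀ n, N ≤ n → ¬ T.Win b U (x.pos n) := by
      by_contra hc
      push Not at hc
      have hc' : ∃ m, N ≤ m ∧ T.Win b U (x.pos m) := hc
      have hm := Nat.find_spec hc'
      set m := Nat.find hc' with hmdef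
      have hloc : ∀ n, m ≤ n →
          ∃ h : ∃ j, N ≤ j ∧ j ≤ T.len (x.pos n) ∧ T.Win b U (T.pre j (x.pos n)),
            T.pre (Nat.find h) (x.pos n) = x.pos m := by
        intro n hn
        have h : ∃ j, N ≤ j ∧ j ≤ T.len (x.pos n) ∧ T.Win b U (T.pre j (x.pos n)) :=
          ⟨m, hm.1, by rw [x.len_pos]; exact hn, by rw [x.pre_pos hn]; exact hm.2⟩
        refine ⟨h, ?_⟩
        have heq : Nat.find h = m := by
          apply le_antisymm
          · apply Nat.find_min' h
            exact ⟨hm.1, by rw [x.len_pos]; exact hn, by rw [x.pre_pos hn]; exact hm.2⟩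
          · rw [hmdef]
            apply Nat.find_min' hc'
            have h3 := Nat.find_spec h
            refine ⟨h3.1, ?_⟩
            have h4 := h3.2.2
            have h5 : Nat.find h ≤ n := h3.2.1.trans (x.len_pos n).le
            rwa [x.pre_pos h5] at h4
        rw [heq, x.pre_pos hn]
      have hfol : FollowsFrom (T.len (x.pos m)) b (winStrat hm.2) x := by
        intro n hn ht
        rw [x.len_pos] at hn
        rw [hx n (le_trans hm.1 hn) ht]
        obtain ⟨h, hh⟩ := hloc n hn
        unfold sw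
        rw [dif_neg (hno n), dif_pos h]
        congr 2
      obtain ⟨n, hn, hnU⟩ := winStrat_spec hm.2 x (by rw [x.len_pos]) hfol
      rw [x.len_pos] at hn
      exact hU n (le_trans hm.1 hn) hnU
    intro n hn
    refine ⟨hW n hn, fun ht => ?_⟩
    rw [hx n hn ht]
    unfold sw
    rw [dif_neg (hno n), dif_neg]
    rintro ⟨m, h1, h2, h3⟩
    rw [x.len_pos] at h2
    rw [x.pre_pos h2] at h3
    exact hW m h1 h3

/-- The switching rule gives children if A and B do. -/
theorem sw_child {b : Bool} {U : Set T.Pos} {N : ℕ} {A : T.Pos → T.Pos → T.Pos}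
    {B : T.Pos → T.Pos} (p : T.Pos) (hA : ∀ u, T.Child p (A u p)) (hB : T.Child p (B p)) :
    T.Child p (sw b U N A B p) := by
  classical
  unfold sw
  split_ifs with h1 h2
  · exact hA _
  · exact (winStrat _).child p
  · exact hB

/-- The switching rule only uses A _ p and B p at p. -/
theorem sw_congr {b : Bool} {U U' : Set T.Pos} {N : ℕ} {A A' : T.Pos → T.Pos → T.Pos}
    {B B' : T.Pos → T.Pos} (p : T.Pos) (hU : U = U') (hA : ∀ u, A u p = A' u p)
    (hB : B p = B' p) : sw b U N A B p = sw b U' N A' B' p := by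
  classical
  subst hU
  unfold sw
  rw [hB]
  split_ifs with h1 h2
  · exact hA _
  · rfl
  · rfl

end GTree

end Pool.Agent.Det
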