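import Pool.Agent.Det.Tree
import Pool.Agent.Det.Switch

/-!
# Unravelling of a closed set: transfer of the strategies of player II
-/

set_option autoImplicit false

namespace Pool.Agent.Det

open GTree

universe u

namespace UII

section
variable {T : GTree.{u}} {k : ℕ} {C : Set T.Pos} {hC : ∀ p ∈ C, T.par p ∈ C}

/-- the projection of the answer of s at the position (p, Q, o) -/
noncomputable def mv (s : (STree T k C hC).Strat) (p : T.Pos) (Q : Set T.Pos) (o : Opt T.Pos) :
    T.Pos := by
  classical
  exact if h : ∃ q : (STree T k C hC).Pos, q.p = p ∧ q.Q = Q ∧ q.o = o then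
    (s.move (Classical.choose h)).p else T.dflt p

/-- the option in the answer of s at the position (p, Q, o) -/
noncomputable def mvo (s : (STree T k C hC).Strat) (p : T.Pos) (Q : Set T.Pos) (o : Opt T.Pos) :
    Opt T.Pos := by
  classical
  exact if h : ∃ q : (STree T k C hC).Pos, q.p = p ∧ q.Q = Q ∧ q.o = o then
    (s.move (Classical.choose h)).o else Opt.none

theorem mv_eq (s : (STree T k C hC).Strat) (q : (STree T k C hC).Pos) :
    mv s q.p q.Q q.o = (s.move q).p := by
  classical
  have h : ∃ q' : (STree T k C hC).Pos, q'.p = q.p ∧ q'.Q = q.Q ∧ q'.o = q.o := ⟨q, rfl, rfl, rfl⟩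
  have h2 : Classical.choose h = q :=
    SPos.ext (Classical.choose_spec h).1 (Classical.choose_spec h).2.1
      (Classical.choose_spec h).2.2
  unfold mv
  rw [dif_pos h, h2]

theorem mvo_eq (s : (STree T k C hC).Strat) (q : (STree T k C hC).Pos) :
    mvo s q.p q.Q q.o = (s.move q).o := by
  classical
  have h : ∃ q' : (STree T k C hC).Pos, q'.p = q.p ∧ q'.Q = q.Q ∧ q'.o = q.o := ⟨q, rfl, rfl, rfl⟩
  have h2 : Classical.choose h = q :=
    SPos.ext (Classical.choose_spec h).1 (Classical.choose_spec h).2.1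
      (Classical.choose_spec h).2.2
  unfold mvo
  rw [dif_pos h, h2]

theorem mv_child (s : (STree T k C hC).Strat) (p : T.Pos) (Q : Set T.Pos) (o : Opt T.Pos) :
    T.Child p (mv s p Q o) := by
  classical
  unfold mv
  split_ifs with h
  · have h1 := schild (s.child (Classical.choose h))
    rwa [(Classical.choose_spec h).1] at h1
  · exact T.dflt_child p

theorem mv_congr {s s' : (STree T k C hC).Strat} {n : ℕ}
    (h : ∀ q, (STree T k C hC).len q ≤ n → s.move q = s'.move q) {p : T.Pos} (hp : T.len p ≤ n)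
    (Q : Set T.Pos) (o : Opt T.Pos) : mv s p Q o = mv s' p Q o := by
  classical
  unfold mv
  split_ifs with h1
  · rw [h]
    show T.len (Classical.choose h1).p ≤ n
    rw [(Classical.choose_spec h1).1]
    exact hp
  · rfl

theorem mvo_congr {s s' : (STree T k C hC).Strat} {n : ℕ}
    (h : ∀ q, (STree T k C hC).len q ≤ n → s.move q = s'.move q) {p : T.Pos} (hp : T.len p ≤ n)
    (Q : Set T.Pos) (o : Opt T.Pos) : mvo s p Q o = mvo s' p Q o := by
  classical
  unfold mvo
  split_ifs with h1
  · rw [h]
    show T.len (Classical.choose h1).p ≤ n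
    rw [(Classical.choose_spec h1).1]
    exact hp
  · rfl

/-- Which answers of s at level 2k+1 give out u. -/
def Giv (s : (STree T k C hC).Strat) (u : T.Pos) (Q : Set T.Pos) : Prop :=
  ∃ q : (STree T k C hC).Pos, T.len q.p = 2 * k + 1 ∧ q.Q = Q ∧ (s.move q).o = Opt.out u

/-- The target set of II. -/
def US (s : (STree T k C hC).Strat) : Set T.Pos := {u | ∃ Q, Giv s u Q}

/-- the quasi-strategy chosen for u. -/
noncomputable def QU (s : (STree T k C hC).Strat) (u : T.Pos) : Set T.Pos :=
  Classical.epsilon (Giv s u)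

theorem Giv_congr {s s' : (STree T k C hC).Strat}
    (h : ∀ q, (STree T k C hC).len q ≤ 2 * k + 1 → s.move q = s'.move q) : Giv s = Giv s' := by
  funext u Q
  apply propext
  constructor
  · rintro ⟨q, h1, h2, h3⟩
    exact ⟨q, h1, h2, by rw [← h q (le_of_eq h1)]; exact h3⟩
  · rintro ⟨q, h1, h2, h3⟩
    exact ⟨q, h1, h2, by rw [h q (le_of_eq h1)]; exact h3⟩

/-- The positions not winning for II (with all prefixes from 2k+1 on). -/
def QS (T : GTree.{u}) (k : ℕ) (U : Set T.Pos) : Set T.Pos :=
  {p | 2 * k + 1 ≤ T.len p ∧ ∀ m, 2 * k + 1 ≤ m → ¬ T.Win true U (T.pre m p)}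

theorem QS_isQ1 (U : Set T.Pos) : IsQ1 T k (QS T k U) where
  ge p hp := hp.1
  par_mem p hp h := by
    refine ⟨by rw [T.len_par]; omega, fun m hm => ?_⟩
    rcases Nat.lt_or_ge m (T.len p) with h1 | h1
    · rw [pre_par h1]; exact hp.2 m hm
    · rw [pre_of_ge (by rw [T.len_par]; omega), ← pre_pred (by omega)]
      exact hp.2 _ (by omega)
  own p hp h := by
    obtain ⟨q, hq, hq2⟩ := exists_not_win_child (p := p) (by
      have := hp.2 (T.len p) hp.1
      rwa [pre_len] at this)
    refine ⟨q, hq, by rw [hq.len_eq]; have := hp.1; omega, fun m hm => ?_⟩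
    rcases Nat.lt_or_ge m (T.len q) with h1 | h1
    · rw [hq.pre_eq (by rw [hq.len_eq] at h1; omega)]; exact hp.2 m hm
    · rw [pre_of_ge h1]; exact hq2
  opp p hp h q hq := by
    have hq2 : ¬ T.Win true U q := not_win_child (p := p) (by
      have := hp.2 (T.len p) hp.1
      rwa [pre_len] at this) h hq
    refine ⟨by rw [hq.len_eq]; have := hp.1; omega, fun m hm => ?_⟩
    rcases Nat.lt_or_ge m (T.len q) with h1 | h1
    · rw [hq.pre_eq (by rw [hq.len_eq] at h1; omega)]; exact hp.2 m hm
    · rw [pre_of_ge h1]; exact hq2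

/-- rule after reaching u -/
noncomputable def ruleA (s : (STree T k C hC).Strat) (u p : T.Pos) : T.Pos :=
  mv s p (QU s u) (Opt.out u)

/-- rule while no position is winning -/
noncomputable def ruleB (s : (STree T k C hC).Strat) (p : T.Pos) : T.Pos :=
  if T.len p ≤ 2 * k + 1 then mv s p (QS T k (US s)) Opt.none
  else mv s p (QS T k (US s)) (mvo s (T.pre (2 * k + 1) p) (QS T k (US s)) Opt.none)

theorem ruleB_child (s : (STree T k C hC).Strat) (p : T.Pos) : T.Child p (ruleB s p) := by
  unfold ruleB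
  split_ifs <;> exact mv_child s p _ _

/-- the strategy -/
noncomputable def phi (s : (STree T k C hC).Strat) : T.Strat where
  move p := if T.len p ≤ 2 * k then mv s p ∅ Opt.none
    else sw true (US s) (2 * k + 1) (ruleA s) (ruleB s) p
  child p := by
    split_ifs
    · exact mv_child s p _ _
    · exact sw_child p (fun u => mv_child s p _ _) (ruleB_child s p)

theorem phi_lo (s : (STree T k C hC).Strat) {p : T.Pos} (h : T.len p ≤ 2 * k) :
    (phi s).move p = mv s p ∅ Opt.none := if_pos h

theorem phi_hi (s : (STree T k C hC).Strat) {p : T.Pos} (h : 2 * k + 1 ≤ T.len p) :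
    (phi s).move p = sw true (US s) (2 * k + 1) (ruleA s) (ruleB s) p := if_neg (by omega)

theorem phi_loc (s s' : (STree T k C hC).Strat) (n : ℕ)
    (h : ∀ q, (STree T k C hC).len q ≤ n → s.move q = s'.move q) (p : T.Pos)
    (hp : T.len p ≤ n) : (phi s).move p = (phi s').move p := by
  rcases Nat.lt_or_ge (2 * k) (T.len p) with h1 | h1
  · rw [phi_hi s h1, phi_hi s' h1]
    have hG : Giv s = Giv s' := Giv_congr fun q hq => h q (by omega)
    have hU : US s = US s' := by unfold US; rw [hG]
    have hQ : QU s = QU s' := by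
      funext u
      unfold QU
      rw [hG]
    refine sw_congr p hU (fun u => ?_) ?_
    · unfold ruleA
      rw [hQ]
      exact mv_congr h hp _ _
    · unfold ruleB
      rw [hU]
      rw [mvo_congr h (p := T.pre (2 * k + 1) p) (by rw [len_pre]; omega)]
      split_ifs
      · exact mv_congr h hp _ _
      · exact mv_congr h hp _ _
  · rw [phi_lo s h1, phi_lo s' h1]
    exact mv_congr h hp _ _

theorem phi_low (s : (STree T k C hC).Strat) (q : (STree T k C hC).Pos)
    (h : (STree T k C hC).len q < 2 * k) :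
    (phi s).move ((SHom T k C hC).f q) = (SHom T k C hC).f (s.move q) := by
  have h1 : T.len q.p < 2 * k := h
  show (phi s).move q.p = (s.move q).p
  rw [phi_lo s h1.le, ← mv_eq s q, q.low h1.le, q.lowo (by omega)]

/-- The lifted play follows s. -/
theorem follows_lift (s : (STree T k C hC).Strat) (x : T.Play) (hx : Follows true (phi s) x)
    (Q : Set T.Pos) (hQ : IsQ1 T k Q) (o : Opt T.Pos)
    (ho : ∀ n, 2 * k + 2 ≤ n → ValidOpt T k C Q (x.pos n) o)
    (t : (STree T k C hC).Pos) (ht : T.len t.p = 2 * k + 1) (htp : (s.move t).p = x.pos (2 * k + 2))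
    (htQ : t.Q = Q) (hto : (s.move t).o = o)
    (hhi : ∀ n, 2 * k + 2 ≤ n → n % 2 = 1 → ∀ q : (STree T k C hC).Pos, q.p = x.pos n → q.Q = Q →
      q.o = o → (s.move q).p = x.pos (n + 1)) :
    Follows true s (liftPlay hC x Q hQ o ho) := by
  have htp' : t.p = x.pos (2 * k + 1) := by
    have h1 := (schild (s.child t)).1
    rw [htp] at h1
    rw [← h1]
    exact x.par_pos _
  intro n hn
  have hn' : n % 2 = 1 := hn
  rcases Nat.lt_trichotomy n (2 * k + 1) with h | h | h
  · have h2 : n < 2 * k := by omega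
    rw [liftPlay_lo x Q hQ o ho n h2.le]
    apply SHom_low_inj
    · rw [(liftPlay hC x Q hQ o ho).len_pos]; omega
    · show x.pos (n + 1) = (s.move (SPos.lo (x.pos n) _)).p
      have h3 := hx n hn
      rw [phi_lo s (by rw [x.len_pos]; omega)] at h3
      rw [h3]
      exact mv_eq s (SPos.lo (x.pos n) (by rw [x.len_pos]; omega))
  · subst h
    have h1 : (liftPlay hC x Q hQ o ho).pos (2 * k + 1) = t := by
      apply SPos.ext
      · exact htp'.symm
      · show (if 2 * k + 1 ≤ 2 * k then (∅ : Set T.Pos) else Q) = t.Q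
        rw [if_neg (by omega), htQ]
      · show (if 2 * k + 1 ≤ 2 * k + 1 then (Opt.none : Opt T.Pos) else o) = t.o
        rw [if_pos le_rfl, t.lowo (by omega)]
    rw [h1]
    apply SPos.ext
    · exact htp.symm
    · show (if 2 * k + 1 + 1 ≤ 2 * k then (∅ : Set T.Pos) else Q) = (s.move t).Q
      rw [if_neg (by omega), (schild_mid (s.child t) ht).2, htQ]
    · show (if 2 * k + 1 + 1 ≤ 2 * k + 1 then (Opt.none : Opt T.Pos) else o) = (s.move t).o
      rw [if_neg (by omega), hto]
  · have h1 := liftPlay_hi (hC := hC) x Q hQ o ho n (by omega)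
    have hlen : T.len (x.pos n) = n := x.len_pos n
    have h2 := schild_hi (s.child ((liftPlay hC x Q hQ o ho).pos n)) (by
      rw [liftPlay_p, hlen]; omega)
    have hQn : ((liftPlay hC x Q hQ o ho).pos n).Q = Q := by rw [h1]; rfl
    have hon : ((liftPlay hC x Q hQ o ho).pos n).o = o := by rw [h1]; rfl
    apply SPos.ext
    · exact (hhi n (by omega) hn' _ rfl hQn hon).symm
    · rw [h2.2.1, hQn, liftPlay_hi x Q hQ o ho (n + 1) (by omega)]; rfl
    · rw [h2.2.2, hon, liftPlay_hi x Q hQ o ho (n + 1) (by omega)]; rfl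

theorem phi_lift (s : (STree T k C hC).Strat) (x : T.Play) (hx : Follows true (phi s) x) :
    ∃ y : (STree T k C hC).Play, (SHom T k C hC).play y = x ∧ Follows true s y := by
  have hsw : ∀ n, 2 * k + 1 ≤ n → Turn true n →
      x.pos (n + 1) = sw true (US s) (2 * k + 1) (ruleA s) (ruleB s) (x.pos n) := by
    intro n hn ht
    rw [hx n ht, phi_hi s (by rw [x.len_pos]; exact hn)]
  rcases sw_spec x hsw with hA | ⟨m, hm, hmU, -, hB⟩
  · -- no winning position
    set Q := QS T k (US s) with hQdef
    have hQ1 : IsQ1 T k Q := QS_isQ1 (US s)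
    have hmem : ∀ n, 2 * k + 1 ≤ n → x.pos n ∈ Q := by
      intro n hn
      refine ⟨by rw [x.len_pos]; exact hn, fun j hj => ?_⟩
      rcases Nat.lt_or_ge j n with h | h
      · rw [x.pre_pos h.le]; exact (hA j hj).1
      · rw [pre_of_ge (by rw [x.len_pos]; exact h)]; exact (hA n hn).1
    let t : (STree T k C hC).Pos :=
      SPos.mi (x.pos (2 * k + 1)) (x.len_pos _) Q hQ1 (hmem _ le_rfl)
    have htlen : T.len t.p = 2 * k + 1 := x.len_pos _
    have hodd : Turn true (2 * k + 1) := by show (2 * k + 1) % 2 = 1; omega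
    have htp : (s.move t).p = x.pos (2 * k + 2) := by
      have h1 := (hA (2 * k + 1) le_rfl).2 hodd
      rw [show (2 * k + 2) = (2 * k + 1) + 1 from rfl, h1]
      unfold ruleB
      rw [if_pos (by rw [x.len_pos])]
      exact (mv_eq s t).symm
    have hc := schild_mid (s.child t) htlen
    have hlen2 : T.len (s.move t).p = 2 * k + 2 := by rw [htp, x.len_pos]
    have hv := (s.move t).hi (by omega)
    rw [hc.2] at hv
    have hvQ : ValidOpt T k C Q (s.move t).p (s.move t).o := hv
    obtain ⟨Q2, hQ2⟩ : ∃ Q2, (s.move t).o = Opt.stay Q2 := by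
      cases ho : (s.move t).o with
      | none => rw [ho] at hvQ; exact hvQ.elim
      | out u =>
        exfalso
        rw [ho] at hvQ
        have hu : u ∈ US s := ⟨t.Q, t, htlen, rfl, ho⟩
        have h2 := hvQ.2.2.1
        have h3 := h2.2 (T.len u) h2.1
        rw [pre_len] at h3
        exact h3 (win_of_mem hu)
      | stay Q2 => exact ⟨Q2, rfl⟩
    rw [hQ2] at hvQ
    have hmvo : mvo s (x.pos (2 * k + 1)) Q Opt.none = Opt.stay Q2 := by
      rw [← hQ2]; exact mvo_eq s t
    have hBrule : ∀ n, 2 * k + 2 ≤ n → n % 2 = 1 →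
        x.pos (n + 1) = mv s (x.pos n) Q (Opt.stay Q2) := by
      intro n hn hodd
      have h1 := (hA n (by omega)).2 hodd
      rw [h1]
      unfold ruleB
      rw [if_neg (by rw [x.len_pos]; omega), x.pre_pos (by omega), hmvo]
    have hmem2 : ∀ n, 2 * k + 2 ≤ n → x.pos n ∈ Q2 := by
      intro n hn
      induction n, hn using Nat.le_induction with
      | base => rw [← htp]; exact hvQ.2
      | succ n hn ih =>
        rcases Nat.mod_two_eq_zero_or_one n with h | h
        · exact hvQ.1.opp (x.pos n) ih (by rw [x.len_pos]; exact h) _ (x.child n)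
            (hmem (n + 1) (by omega))
        · rw [hBrule n hn h]
          let q : (STree T k C hC).Pos := SPos.up (x.pos n) (by rw [x.len_pos]; exact hn) Q hQ1
            (Opt.stay Q2) ⟨hvQ.1, ih⟩
          have hq : mv s (x.pos n) Q (Opt.stay Q2) = (s.move q).p := mv_eq s q
          have hqlen : 2 * k + 2 ≤ T.len q.p := by
            show 2 * k + 2 ≤ T.len (x.pos n)
            rw [x.len_pos]; exact hn
          have hcq := schild_hi (s.child q) hqlen
          have hhi := (s.move q).hi (by rw [hcq.1.len_eq]; omega)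
          rw [hcq.2.2] at hhi
          rw [hq]
          exact hhi.2
    have ho : ∀ n, 2 * k + 2 ≤ n → ValidOpt T k C Q (x.pos n) (Opt.stay Q2) :=
      fun n hn => ⟨hvQ.1, hmem2 n hn⟩
    refine ⟨liftPlay hC x Q hQ1 _ ho, liftPlay_proj x Q hQ1 _ ho, ?_⟩
    refine follows_lift s x hx Q hQ1 _ ho t htlen htp rfl hQ2 ?_
    intro n hn hodd q hqp hqQ hqo
    rw [← mv_eq s q, hqp, hqQ, hqo]
    exact (hBrule n hn hodd).symm
  · -- u is reached
    set u := x.pos m with hu
    have hlenu : T.len u = m := x.len_pos m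
    have hG : Giv s u (QU s u) := Classical.epsilon_spec hmU
    obtain ⟨t, htlen, htQ, hto⟩ := hG
    set Q := QU s u with hQdef
    have hc := schild_mid (s.child t) htlen
    have hlen2 : T.len (s.move t).p = 2 * k + 2 := by rw [hc.1.len_eq, htlen]
    have hv := (s.move t).hi (by omega)
    rw [hc.2, hto, htQ] at hv
    have hQ1 : IsQ1 T k Q := by rw [← htQ]; exact (t.mid (by omega)).1
    obtain ⟨h1, h2, h3, h4, h5⟩ := hv
    have htp : (s.move t).p = x.pos (2 * k + 2) := by
      have h6 := (compat_of_le (by omega)).1 h5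
      rw [h6, hlen2]
      exact x.pre_pos (by omega)
    have ho : ∀ n, 2 * k + 2 ≤ n → ValidOpt T k C Q (x.pos n) (Opt.out u) := by
      intro n hn
      refine ⟨h1, h2, h3, h4, ?_⟩
      show T.pre (T.len u) (x.pos n) = T.pre (T.len (x.pos n)) u
      rw [hlenu, x.len_pos, hu]
      rcases Nat.le_total m n with h | h
      · rw [x.pre_pos h, pre_of_ge (by rw [x.len_pos]; exact h)]
      · rw [x.pre_pos h, pre_of_ge (by rw [x.len_pos]; exact h)]
    refine ⟨liftPlay hC x Q hQ1 _ ho, liftPlay_proj x Q hQ1 _ ho, ?_⟩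
    refine follows_lift s x hx Q hQ1 _ ho t htlen htp htQ hto ?_
    intro n hn hodd q hqp hqQ hqo
    have hqlen : T.len q.p = n := by rw [hqp]; exact x.len_pos n
    rcases Nat.lt_or_ge n m with h | h
    · have hcq := schild_hi (s.child q) (by omega)
      have h6 := schild_out (s.child q) (u := u) (by rw [hcq.2.2, hqo]) (by omega)
      rw [h6, hqlen]
      exact x.pre_pos (by omega)
    · rw [← mv_eq s q, hqp, hqQ, hqo]
      exact (hB n h hodd).symm

end

end UII

theorem unravelII : UnravelII_Stmt.{u} := fun _ _ _ _ =>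
  ⟨UII.phi, UII.phi_loc, UII.phi_low, UII.phi_lift⟩

end Pool.Agent.Det
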