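import Pool.Agent.Det.BorelDet
import Pool.Agent.Det.UnravelI
import Pool.Agent.Det.UnravelII
import Pool.Agent.Det.InvLim
import Pool.Agent.Det.UU
import Pool.Agent.Det.Graded
import Pool.Agent.Det.Causal

/-!
# Borel determinacy (Martin 1975, 1985)
-/

namespace Pool.Agent.Det

universe u

theorem unravel : Unravel_Stmt.{u} := unravel_of_halves unravelI.{u} unravelII.{u}

/-- **Borel determinacy** for games with moves in an arbitrary nonempty set -/
theorem borel_determinacy : BorelDet_Stmt.{u} := borelDet unravel.{u} invLim.{u}

/-- graded form -/
theorem graded_determinacy : GradedDet_Stmt.{u} := gradedDet borel_determinacy.{u}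

/-- the form used for MP_d9833d_lc -/
theorem stmtCausal : Pool.Agent.LCL89.BD.StmtCausal := causal graded_determinacy.{0}

end Pool.Agent.Det
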