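import Pool.Agent.Det.Basic

/-!
# The auxiliary tree of Martin's unravelling of a closed set

Positions: (p, Q, o) with p a position of T; from length 2k+1 on, Q is a quasi-strategy of player I
(set of positions of length at least 2k+1), below Q is the empty set; from length 2k+2 on, o is either
out u (u in Q of even length, not in C; the play has to pass through u) or stay Q' (Q' a quasi-strategy
of player II inside Q and C; the play has to stay in Q'), below o is none.
-/

namespace Pool.Agent.Det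

open GTree

universe u

/-- quasi-strategy of player I from length 2k+1 on -/
structure IsQ1 (T : GTree.{u}) (k : ℕ) (Q : Set T.Pos) : Prop where
  ge : ∀ p ∈ Q, 2 * k + 1 ≤ T.len p
  par_mem : ∀ p ∈ Q, 2 * k + 1 < T.len p → T.par p ∈ Q
  own : ∀ p ∈ Q, T.len p % 2 = 0 → ∃ q, T.Child p q ∧ q ∈ Q
  opp : ∀ p ∈ Q, T.len p % 2 = 1 → ∀ q, T.Child p q → q ∈ Q

/-- quasi-strategy of player II inside Q1 and C from length 2k+2 on -/
structure IsQ2 (T : GTree.{u}) (k : ℕ) (C Q1 Q2 : Set T.Pos) : Prop where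
  ge : ∀ p ∈ Q2, 2 * k + 2 ≤ T.len p
  sub : Q2 ⊆ Q1
  subC : Q2 ⊆ C
  par_mem : ∀ p ∈ Q2, 2 * k + 2 < T.len p → T.par p ∈ Q2
  own : ∀ p ∈ Q2, T.len p % 2 = 1 → ∃ q, T.Child p q ∧ q ∈ Q2
  opp : ∀ p ∈ Q2, T.len p % 2 = 0 → ∀ q, T.Child p q → q ∈ Q1 → q ∈ Q2

/-- the options of player II -/
inductive Opt (P : Type u) : Type u
  | none : Opt P
  | out (u : P) : Opt P
  | stay (Q : Set P) : Opt P

/-- u and p are comparable -/
def Compat (T : GTree.{u}) (u p : T.Pos) : Prop := T.pre (T.len u) p = T.pre (T.len p) u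

/-- the option o is allowed at p (of length at least 2k+2). -/
def ValidOpt (T : GTree.{u}) (k : ℕ) (C Q1 : Set T.Pos) (p : T.Pos) : Opt T.Pos → Prop
  | Opt.none => False
  | Opt.out u => 2 * k + 2 ≤ T.len u ∧ T.len u % 2 = 0 ∧ u ∈ Q1 ∧ u ∉ C ∧ Compat T u p
  | Opt.stay Q2 => IsQ2 T k C Q1 Q2 ∧ p ∈ Q2

section
variable {T : GTree.{u}} {k : ℕ} {C : Set T.Pos}

theorem compat_of_le {u p : T.Pos} (h : T.len p ≤ T.len u) : Compat T u p ↔ p = T.pre (T.len p) u := by
  unfold Compat
  rw [pre_of_ge h]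

theorem compat_of_ge {u p : T.Pos} (h : T.len u ≤ T.len p) : Compat T u p ↔ T.pre (T.len u) p = u := by
  unfold Compat
  rw [pre_of_ge h]

theorem compat_self (u : T.Pos) : Compat T u u := rfl

theorem compat_par {u p : T.Pos} (h : Compat T u p) : Compat T u (T.par p) := by
  rcases Nat.eq_zero_or_pos (T.len p) with h0 | h0
  · rwa [T.par_root p h0]
  rcases Nat.lt_or_ge (T.len u) (T.len p) with h1 | h1
  · rw [compat_of_ge (by omega)] at h
    rw [compat_of_ge (by rw [T.len_par]; omega), pre_par h1, h]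
  · rw [compat_of_le h1] at h
    rw [compat_of_le (by rw [T.len_par]; omega), T.len_par]
    conv_lhs => rw [h]
    have h2 : T.len p = (T.len p - 1) + 1 := by omega
    rw [h2, par_pre (by omega)]
    rfl

theorem compat_child_out {u p q : T.Pos} (h : Compat T u p) (hlt : T.len u ≤ T.len p)
    (hq : T.Child p q) : Compat T u q := by
  rw [compat_of_ge hlt] at h
  rw [compat_of_ge (by rw [hq.len_eq]; omega), hq.pre_eq hlt, h]

theorem IsQ1.pre_mem {Q : Set T.Pos} (hQ : IsQ1 T k Q) {p : T.Pos} (hp : p ∈ Q) {m : ℕ}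
    (hm : 2 * k + 1 ≤ m) : T.pre m p ∈ Q := by
  rcases Nat.lt_or_ge m (T.len p) with h | h
  · obtain ⟨d, hd⟩ : ∃ d, T.len p = m + d := ⟨T.len p - m, by omega⟩
    induction d generalizing p with
    | zero => omega
    | succ d ih =>
      rw [← pre_par h]
      rcases Nat.lt_or_ge m (T.len (T.par p)) with h1 | h1
      · exact ih (hQ.par_mem p hp (by omega)) h1 (by rw [T.len_par]; omega)
      · rw [pre_of_ge h1]
        exact hQ.par_mem p hp (by omega)
  · rwa [pre_of_ge h]

theorem IsQ2.pre_mem {Q1 Q : Set T.Pos} (hQ : IsQ2 T k C Q1 Q) {p : T.Pos} (hp : p ∈ Q) {m : ℕ}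
    (hm : 2 * k + 2 ≤ m) : T.pre m p ∈ Q := by
  rcases Nat.lt_or_ge m (T.len p) with h | h
  · obtain ⟨d, hd⟩ : ∃ d, T.len p = m + d := ⟨T.len p - m, by omega⟩
    induction d generalizing p with
    | zero => omega
    | succ d ih =>
      rw [← pre_par h]
      rcases Nat.lt_or_ge m (T.len (T.par p)) with h1 | h1
      · exact ih (hQ.par_mem p hp (by omega)) h1 (by rw [T.len_par]; omega)
      · rw [pre_of_ge h1]
        exact hQ.par_mem p hp (by omega)
  · rwa [pre_of_ge h]

theorem ValidOpt.par {Q1 : Set T.Pos} {p : T.Pos} {o : Opt T.Pos} (h : ValidOpt T k C Q1 p o)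
    (hp : 2 * k + 2 < T.len p) : ValidOpt T k C Q1 (T.par p) o := by
  cases o with
  | none => exact h.elim
  | out u => exact ⟨h.1, h.2.1, h.2.2.1, h.2.2.2.1, compat_par h.2.2.2.2⟩
  | stay Q2 => exact ⟨h.1, h.1.par_mem p h.2 hp⟩

/-- the base position of length 2k+1 is in Q1 -/
theorem ValidOpt.base_mem {Q1 : Set T.Pos} (hQ : IsQ1 T k Q1) {p : T.Pos} {o : Opt T.Pos}
    (h : ValidOpt T k C Q1 p o) (hp : 2 * k + 2 ≤ T.len p) : T.pre (2 * k + 1) p ∈ Q1 := by
  cases o with
  | none => exact h.elim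
  | out u =>
    obtain ⟨h1, -, h3, -, h5⟩ := h
    have : T.pre (2 * k + 1) p = T.pre (2 * k + 1) u := by
      rcases Nat.lt_or_ge (T.len u) (T.len p) with h6 | h6
      · rw [compat_of_ge (by omega)] at h5
        conv_rhs => rw [← h5]
        rw [pre_pre (by omega)]
      · rw [compat_of_le h6] at h5
        conv_lhs => rw [h5]
        rw [pre_pre (by omega)]
    rw [this]
    exact hQ.pre_mem h3 le_rfl
  | stay Q2 => exact hQ.pre_mem (h.1.sub h.2) le_rfl

end

/-- positions of the auxiliary tree -/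
@[ext]
structure SPos (T : GTree.{u}) (k : ℕ) (C : Set T.Pos) : Type u where
  p : T.Pos
  Q : Set T.Pos
  o : Opt T.Pos
  low : T.len p ≤ 2 * k → Q = ∅
  mid : 2 * k + 1 ≤ T.len p → IsQ1 T k Q ∧ T.pre (2 * k + 1) p ∈ Q
  lowo : T.len p ≤ 2 * k + 1 → o = Opt.none
  hi : 2 * k + 2 ≤ T.len p → ValidOpt T k C Q p o

namespace SPos

variable {T : GTree.{u}} {k : ℕ} {C : Set T.Pos}

/-- parent -/
def par (s : SPos T k C) : SPos T k C where
  p := T.par s.p
  Q := if T.len s.p ≤ 2 * k + 1 then ∅ else s.Q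
  o := if T.len s.p ≤ 2 * k + 2 then Opt.none else s.o
  low h := by
    rw [T.len_par] at h
    rw [if_pos (by omega)]
  mid h := by
    rw [T.len_par] at h
    rw [if_neg (by omega), pre_par (by omega)]
    exact s.mid (by omega)
  lowo h := by
    rw [T.len_par] at h
    rw [if_pos (by omega)]
  hi h := by
    rw [T.len_par] at h
    rw [if_neg (by omega), if_neg (by omega)]
    exact (s.hi (by omega)).par (by omega)

/-- a low position (length at most 2k) -/
def lo (p : T.Pos) (hp : T.len p ≤ 2 * k) : SPos T k C where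
  p := p
  Q := ∅
  o := Opt.none
  low _ := rfl
  mid h := by omega
  lowo _ := rfl
  hi h := by omega

/-- a position of length 2k+1 -/
def mi (p : T.Pos) (hp : T.len p = 2 * k + 1) (Q : Set T.Pos) (hQ : IsQ1 T k Q) (hm : p ∈ Q) :
    SPos T k C where
  p := p
  Q := Q
  o := Opt.none
  low h := by omega
  mid _ := ⟨hQ, by rw [pre_of_ge (by omega)]; exact hm⟩
  lowo _ := rfl
  hi h := by omega

/-- a position of length at least 2k+2 -/
def up (p : T.Pos) (hp : 2 * k + 2 ≤ T.len p) (Q : Set T.Pos) (hQ : IsQ1 T k Q) (o : Opt T.Pos)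
    (ho : ValidOpt T k C Q p o) : SPos T k C where
  p := p
  Q := Q
  o := o
  low h := by omega
  mid _ := ⟨hQ, ho.base_mem hQ hp⟩
  lowo h := by omega
  hi _ := ho

theorem par_Q_le (s : SPos T k C) (h : T.len s.p ≤ 2 * k + 1) : s.par.Q = ∅ := if_pos h
theorem par_Q_gt (s : SPos T k C) (h : 2 * k + 1 < T.len s.p) : s.par.Q = s.Q :=
  if_neg (by omega)
theorem par_o_le (s : SPos T k C) (h : T.len s.p ≤ 2 * k + 2) : s.par.o = Opt.none := if_pos h
theorem par_o_gt (s : SPos T k C) (h : 2 * k + 2 < T.len s.p) : s.par.o = s.o :=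
  if_neg (by omega)

theorem par_root (s : SPos T k C) (h : T.len s.p = 0) : s.par = s := by
  ext1
  · exact T.par_root _ h
  · rw [par_Q_le _ (by omega), s.low (by omega)]
  · rw [par_o_le _ (by omega), s.lowo (by omega)]

theorem exists_child (hC : ∀ p ∈ C, T.par p ∈ C) (s : SPos T k C) :
    ∃ t : SPos T k C, t.par = s ∧ T.len t.p = T.len s.p + 1 := by
  rcases Nat.lt_trichotomy (T.len s.p) (2 * k) with h | h | h
  · obtain ⟨q, hq⟩ := T.exists_child s.p
    refine ⟨lo q (by omega), ?_, hq.2⟩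
    have hl : T.len (lo (C := C) q (by omega) : SPos T k C).p = T.len s.p + 1 := hq.2
    ext1
    · exact hq.1
    · rw [par_Q_le _ (by omega), s.low (by omega)]
    · rw [par_o_le _ (by omega), s.lowo (by omega)]
  · obtain ⟨q, hq⟩ := T.exists_child s.p
    have hQ : IsQ1 T k {v | 2 * k + 1 ≤ T.len v} := by
      refine ⟨fun p hp => hp, ?_, ?_, ?_⟩
      · intro p hp h1
        have hp' : 2 * k + 1 ≤ T.len p := hp
        show 2 * k + 1 ≤ T.len (T.par p)
        rw [T.len_par]; omega
      · intro p hp _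
        have hp' : 2 * k + 1 ≤ T.len p := hp
        obtain ⟨v, hv⟩ := T.exists_child p
        refine ⟨v, hv, ?_⟩
        show 2 * k + 1 ≤ T.len v
        rw [hv.2]; omega
      · intro p hp _ v hv
        have hp' : 2 * k + 1 ≤ T.len p := hp
        show 2 * k + 1 ≤ T.len v
        rw [hv.2]; omega
    have hqm : q ∈ {v | 2 * k + 1 ≤ T.len v} := by
      show 2 * k + 1 ≤ T.len q
      rw [hq.2]; omega
    have hl0 : T.len q = 2 * k + 1 := by omega
    refine ⟨mi q hl0 _ hQ hqm, ?_, hq.2⟩
    have hl : T.len (mi (C := C) q hl0 _ hQ hqm).p = 2 * k + 1 := hl0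
    ext1
    · exact hq.1
    · rw [par_Q_le _ (by omega), s.low (by omega)]
    · rw [par_o_le _ (by omega), s.lowo (by omega)]
  rcases Nat.lt_or_ge (2 * k + 1) (T.len s.p) with h2 | h2
  · -- length at least 2k+2
    have hv := s.hi (by omega)
    have hm := s.mid (by omega)
    have key : ∃ q, T.Child s.p q ∧ ValidOpt T k C s.Q q s.o := by
      cases ho : s.o with
      | none => rw [ho] at hv; exact hv.elim
      | out u =>
        rw [ho] at hv
        obtain ⟨h3, h4, h5, h6, h7⟩ := hv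
        rcases Nat.lt_or_ge (T.len s.p) (T.len u) with h8 | h8
        · have h9 := (compat_of_le h8.le).1 h7
          refine ⟨T.pre (T.len s.p + 1) u, ?_, h3, h4, h5, h6, ?_⟩
          · have := child_pre h8
            rwa [← h9] at this
          · rw [compat_of_le (by rw [len_pre]; omega), len_pre_of_le (by omega)]
        · obtain ⟨q, hq⟩ := T.exists_child s.p
          exact ⟨q, hq, h3, h4, h5, h6, compat_child_out h7 h8 hq⟩
      | stay Q2 =>
        rw [ho] at hv
        obtain ⟨h3, h4⟩ := hv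
        rcases Nat.mod_two_eq_zero_or_one (T.len s.p) with h5 | h5
        · obtain ⟨q, hq, hqQ⟩ := hm.1.own s.p (h3.sub h4) h5
          exact ⟨q, hq, h3, h3.opp s.p h4 h5 q hq hqQ⟩
        · obtain ⟨q, hq, hqQ⟩ := h3.own s.p h4 h5
          exact ⟨q, hq, h3, hqQ⟩
    obtain ⟨q, hq, hvq⟩ := key
    have hl0 : 2 * k + 2 ≤ T.len q := by rw [hq.len_eq]; omega
    refine ⟨up q hl0 s.Q hm.1 s.o hvq, ?_, hq.2⟩
    have hl : T.len (up q hl0 s.Q hm.1 s.o hvq).p = T.len s.p + 1 := hq.2
    ext1
    · exact hq.1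
    · rw [par_Q_gt _ (by omega)]; rfl
    · rw [par_o_gt _ (by omega)]; rfl
  · -- length 2k+1
    have h3 : T.len s.p = 2 * k + 1 := by omega
    have hm := s.mid (by omega)
    have hsQ : s.p ∈ s.Q := by
      have := hm.2
      rwa [pre_of_ge (by omega)] at this
    obtain ⟨q, hq⟩ := T.exists_child s.p
    have hql : T.len q = 2 * k + 2 := by rw [hq.2, h3]
    have hqQ : q ∈ s.Q := hm.1.opp s.p hsQ (by omega) q hq
    have key : ∃ o, ValidOpt T k C s.Q q o := by
      by_cases hu : ∃ u ∈ s.Q, T.pre (2 * k + 2) u = q ∧ u ∉ C ∧ T.len u % 2 = 0 ∧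
          2 * k + 2 ≤ T.len u
      · obtain ⟨u, h4, h5, h6, h7, h8⟩ := hu
        exact ⟨Opt.out u, h8, h7, h4, h6, by
          rw [compat_of_le (by omega), hql, h5]⟩
      · push Not at hu
        refine ⟨Opt.stay {v | v ∈ s.Q ∧ 2 * k + 2 ≤ T.len v ∧ T.pre (2 * k + 2) v = q}, ?_, ?_⟩
        · refine ⟨fun p hp => hp.2.1, fun p hp => hp.1, ?_, ?_, ?_, ?_⟩
          · intro p hp
            by_contra hpC
            rcases Nat.mod_two_eq_zero_or_one (T.len p) with h5 | h5
            · have := hu p hp.1 hp.2.2 hpC h5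
              have := hp.2.1
              omega
            · obtain ⟨w, hw⟩ := T.exists_child p
              have hwQ := hm.1.opp p hp.1 h5 w hw
              have hwC : w ∉ C := fun hwC => hpC (by
                have := hC w hwC
                rwa [hw.1] at this)
              have hwp : T.pre (2 * k + 2) w = q := by
                have : T.Child p w := hw
                rw [this.pre_eq hp.2.1]; exact hp.2.2
              have h6 := hu w hwQ hwp hwC (by rw [hw.2]; omega)
              have h7 := hp.2.1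
              rw [hw.2] at h6
              omega
          · intro p hp h5
            refine ⟨hm.1.par_mem p hp.1 (by omega), ?_, ?_⟩
            · rw [T.len_par]; omega
            · rw [pre_par (by omega)]; exact hp.2.2
          · intro p hp h5
            obtain ⟨w, hw⟩ := T.exists_child p
            have hc : T.Child p w := hw
            refine ⟨w, hw, hm.1.opp p hp.1 h5 w hw, ?_, ?_⟩
            · rw [hw.2]; have := hp.2.1; omega
            · rw [hc.pre_eq hp.2.1]; exact hp.2.2
          · intro p hp _ w hw hwQ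
            refine ⟨hwQ, ?_, ?_⟩
            · rw [hw.2]; have := hp.2.1; omega
            · rw [hw.pre_eq hp.2.1]; exact hp.2.2
        · exact ⟨hqQ, hql.ge, pre_of_ge hql.le⟩
    obtain ⟨o, ho⟩ := key
    refine ⟨up q hql.ge s.Q hm.1 o ho, ?_, hq.2⟩
    have hl : T.len (up q hql.ge s.Q hm.1 o ho).p = 2 * k + 2 := hql
    ext1
    · exact hq.1
    · rw [par_Q_gt _ (by omega)]; rfl
    · rw [par_o_le _ (by omega), s.lowo (by omega)]

end SPos

/-- the auxiliary tree -/
def STree (T : GTree.{u}) (k : ℕ) (C : Set T.Pos) (hC : ∀ p ∈ C, T.par p ∈ C) : GTree.{u} where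
  Pos := SPos T k C
  len s := T.len s.p
  par := SPos.par
  len_par s := T.len_par s.p
  par_root s h := s.par_root h
  exists_child s := s.exists_child hC

/-- the projection -/
def SHom (T : GTree.{u}) (k : ℕ) (C : Set T.Pos) (hC : ∀ p ∈ C, T.par p ∈ C) :
    Hom (STree T k C hC) T where
  f s := s.p
  len_f _ := rfl
  par_f _ := rfl

section
variable {T : GTree.{u}} {k : ℕ} {C : Set T.Pos} {hC : ∀ p ∈ C, T.par p ∈ C}

theorem SHom_low_surj (p : T.Pos) (hp : T.len p ≤ 2 * k) : ∃ q, (SHom T k C hC).f q = p :=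
  ⟨SPos.lo p hp, rfl⟩

theorem SHom_low_inj (q q' : (STree T k C hC).Pos) (h : (STree T k C hC).len q ≤ 2 * k)
    (he : (SHom T k C hC).f q = (SHom T k C hC).f q') : q = q' := by
  have h1 : q.p = q'.p := he
  have h2 : T.len q.p ≤ 2 * k := h
  have h3 : T.len q'.p ≤ 2 * k := by rw [← h1]; exact h2
  apply SPos.ext h1
  · rw [q.low h2, q'.low h3]
  · rw [q.lowo (by omega), q'.lowo (by omega)]

/-- child relation of the auxiliary tree, length of the child at least 2k+3 -/
theorem schild_hi {s t : (STree T k C hC).Pos} (h : (STree T k C hC).Child s t)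
    (hs : 2 * k + 2 ≤ T.len s.p) : T.Child s.p t.p ∧ t.Q = s.Q ∧ t.o = s.o := by
  have h1 : SPos.par t = s := h.1
  have h2 : T.len t.p = T.len s.p + 1 := h.2
  refine ⟨⟨by rw [← h1]; rfl, h2⟩, ?_, ?_⟩
  · rw [← h1]; simp only [SPos.par]; rw [if_neg (by omega)]
  · rw [← h1]; simp only [SPos.par]; rw [if_neg (by omega)]

theorem schild_mid {s t : (STree T k C hC).Pos} (h : (STree T k C hC).Child s t)
    (hs : T.len s.p = 2 * k + 1) : T.Child s.p t.p ∧ t.Q = s.Q := by
  have h1 : SPos.par t = s := h.1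
  have h2 : T.len t.p = T.len s.p + 1 := h.2
  refine ⟨⟨by rw [← h1]; rfl, h2⟩, ?_⟩
  rw [← h1]; simp only [SPos.par]; rw [if_neg (by omega)]

theorem schild {s t : (STree T k C hC).Pos} (h : (STree T k C hC).Child s t) :
    T.Child s.p t.p := by
  have h1 : SPos.par t = s := h.1
  have h2 : T.len t.p = T.len s.p + 1 := h.2
  exact ⟨by rw [← h1]; rfl, h2⟩

/-- For a position t = (p, Q, out u) and its child, if len p < len u then the child passes along u. -/
theorem schild_out {s t : (STree T k C hC).Pos} (h : (STree T k C hC).Child s t) {u : T.Pos}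
    (ho : t.o = Opt.out u) (hlt : T.len s.p < T.len u) : t.p = T.pre (T.len s.p + 1) u := by
  have h2 : T.len t.p = T.len s.p + 1 := h.2
  rcases Nat.lt_or_ge (T.len t.p) (2 * k + 2) with h3 | h3
  · have := t.lowo (by omega)
    rw [this] at ho
    cases ho
  · have h4 := t.hi h3
    rw [ho] at h4
    have h5 := (compat_of_le (by omega)).1 h4.2.2.2.2
    rw [h5, h2]

/-- the play of the auxiliary tree over x with quasi-strategy Q and option o. -/
def liftPlay (hC : ∀ p ∈ C, T.par p ∈ C) (x : T.Play) (Q : Set T.Pos) (hQ : IsQ1 T k Q)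
    (o : Opt T.Pos) (ho : ∀ n, 2 * k + 2 ≤ n → ValidOpt T k C Q (x.pos n) o) :
    (STree T k C hC).Play where
  pos n :=
    { p := x.pos n
      Q := if n ≤ 2 * k then ∅ else Q
      o := if n ≤ 2 * k + 1 then Opt.none else o
      low := fun h => by rw [x.len_pos] at h; rw [if_pos h]
      mid := fun h => by
        rw [x.len_pos] at h
        rw [if_neg (by omega)]
        refine ⟨hQ, ?_⟩
        have h1 := (ho (2 * k + 2) le_rfl).base_mem hQ (by rw [x.len_pos])
        rw [x.pre_pos (by omega)] at h1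
        rw [x.pre_pos h]
        exact h1
      lowo := fun h => by rw [x.len_pos] at h; rw [if_pos h]
      hi := fun h => by
        rw [x.len_pos] at h
        rw [if_neg (by omega), if_neg (by omega)]
        exact ho n h }
  len_pos n := x.len_pos n
  par_pos n := by
    apply SPos.ext
    · exact x.par_pos n
    · show (if T.len (x.pos (n + 1)) ≤ 2 * k + 1 then (∅ : Set T.Pos) else
        (if n + 1 ≤ 2 * k then ∅ else Q)) = if n ≤ 2 * k then ∅ else Q
      rw [x.len_pos]
      split_ifs <;> first | rfl | omega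
    · show (if T.len (x.pos (n + 1)) ≤ 2 * k + 2 then (Opt.none : Opt T.Pos) else
        (if n + 1 ≤ 2 * k + 1 then Opt.none else o)) = if n ≤ 2 * k + 1 then Opt.none else o
      rw [x.len_pos]
      split_ifs <;> first | rfl | omega

theorem liftPlay_p (x : T.Play) (Q : Set T.Pos) (hQ : IsQ1 T k Q)
    (o : Opt T.Pos) (ho : ∀ n, 2 * k + 2 ≤ n → ValidOpt T k C Q (x.pos n) o) (n : ℕ) :
    ((liftPlay hC x Q hQ o ho).pos n).p = x.pos n := rfl

theorem liftPlay_proj (x : T.Play) (Q : Set T.Pos) (hQ : IsQ1 T k Q)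
    (o : Opt T.Pos) (ho : ∀ n, 2 * k + 2 ≤ n → ValidOpt T k C Q (x.pos n) o) :
    (SHom T k C hC).play (liftPlay hC x Q hQ o ho) = x := by
  ext n; rfl

theorem liftPlay_hi (x : T.Play) (Q : Set T.Pos) (hQ : IsQ1 T k Q)
    (o : Opt T.Pos) (ho : ∀ n, 2 * k + 2 ≤ n → ValidOpt T k C Q (x.pos n) o) (n : ℕ)
    (hn : 2 * k + 2 ≤ n) :
    (liftPlay hC x Q hQ o ho).pos n =
      SPos.up (x.pos n) (by rw [x.len_pos]; exact hn) Q hQ o (ho n hn) := by
  apply SPos.ext
  · rfl
  · show (if n ≤ 2 * k then (∅ : Set T.Pos) else Q) = Q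
    rw [if_neg (by omega)]
  · show (if n ≤ 2 * k + 1 then (Opt.none : Opt T.Pos) else o) = o
    rw [if_neg (by omega)]

theorem liftPlay_lo (x : T.Play) (Q : Set T.Pos) (hQ : IsQ1 T k Q)
    (o : Opt T.Pos) (ho : ∀ n, 2 * k + 2 ≤ n → ValidOpt T k C Q (x.pos n) o) (n : ℕ)
    (hn : n ≤ 2 * k) :
    (liftPlay hC x Q hQ o ho).pos n = SPos.lo (x.pos n) (by rw [x.len_pos]; exact hn) := by
  apply SPos.ext
  · rfl
  · show (if n ≤ 2 * k then (∅ : Set T.Pos) else Q) = ∅
    rw [if_pos hn]
  · show (if n ≤ 2 * k + 1 then (Opt.none : Opt T.Pos) else o) = Opt.none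
    rw [if_pos (by omega)]

theorem liftPlay_mi (x : T.Play) (Q : Set T.Pos) (hQ : IsQ1 T k Q)
    (o : Opt T.Pos) (ho : ∀ n, 2 * k + 2 ≤ n → ValidOpt T k C Q (x.pos n) o)
    (hm : x.pos (2 * k + 1) ∈ Q) :
    (liftPlay hC x Q hQ o ho).pos (2 * k + 1) =
      SPos.mi (x.pos (2 * k + 1)) (x.len_pos _) Q hQ hm := by
  apply SPos.ext
  · rfl
  · show (if 2 * k + 1 ≤ 2 * k then (∅ : Set T.Pos) else Q) = Q
    rw [if_neg (by omega)]
  · show (if 2 * k + 1 ≤ 2 * k + 1 then (Opt.none : Opt T.Pos) else o) = Opt.none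
    rw [if_pos le_rfl]

/-- positions where II has accepted -/
def Dset (T : GTree.{u}) (k : ℕ) (C : Set T.Pos) (hC : ∀ p ∈ C, T.par p ∈ C) :
    Set (STree T k C hC).Pos := {s | ∃ Q2, s.o = Opt.stay Q2}

theorem play_o (y : (STree T k C hC).Play) (n : ℕ) (hn : 2 * k + 2 ≤ n) :
    (y.pos n).o = (y.pos (2 * k + 2)).o ∧ (y.pos n).Q = (y.pos (2 * k + 2)).Q := by
  induction n with
  | zero => omega
  | succ n ih =>
    rcases Nat.lt_or_ge n (2 * k + 2) with h | h
    · have : n + 1 = 2 * k + 2 := by omega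
      rw [this]; exact ⟨rfl, rfl⟩
    · have h1 := y.child n
      have h2 : T.len (y.pos n).p = n := y.len_pos n
      have h3 := schild_hi h1 (by omega)
      rw [h3.2.1, h3.2.2]
      exact ih h

theorem Dset_spec (y : (STree T k C hC).Play) :
    (∀ n, (SHom T k C hC).f (y.pos n) ∈ C) ↔ y.pos (2 * k + 2) ∈ Dset T k C hC := by
  have hlen : ∀ n, T.len (y.pos n).p = n := fun n => y.len_pos n
  constructor
  · intro h
    have h1 := (y.pos (2 * k + 2)).hi (by rw [hlen])
    cases ho : (y.pos (2 * k + 2)).o with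
    | none => rw [ho] at h1; exact h1.elim
    | out u =>
      exfalso
      rw [ho] at h1
      obtain ⟨h2, -, h4, h5, h6⟩ := h1
      have h7 := (y.pos (T.len u)).hi (by rw [hlen]; exact h2)
      rw [(play_o y (T.len u) h2).1, ho] at h7
      have h8 := h7.2.2.2.2
      unfold Compat at h8
      rw [hlen, pre_of_ge (by rw [hlen]), pre_len] at h8
      have h9 := h (T.len u)
      have h10 : (SHom T k C hC).f (y.pos (T.len u)) = u := h8
      rw [h10] at h9
      exact h5 h9
    | stay Q2 => exact ⟨Q2, ho⟩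
  · rintro ⟨Q2, ho⟩ n
    have hbig : ∀ n, 2 * k + 2 ≤ n → (y.pos n).p ∈ C := by
      intro n hn
      have h7 := (y.pos n).hi (by rw [hlen]; exact hn)
      rw [(play_o y n hn).1, ho] at h7
      exact h7.1.subC h7.2
    have hstep : ∀ d, ∀ n, (y.pos (n + d)).p ∈ C → (y.pos n).p ∈ C := by
      intro d
      induction d with
      | zero => intro n h; exact h
      | succ d ih =>
        intro n h
        apply ih
        have h1 := hC _ h
        have h2 : T.par (y.pos (n + (d + 1))).p = (y.pos (n + d)).p := (schild (y.child (n + d))).1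
        rwa [h2] at h1
    exact hstep (2 * k + 2) n (hbig _ (by omega))

end

/-! ## Statements of the two halves -/

/-- transfer of strategies of player b from the auxiliary tree. -/
def Half_Stmt (b : Bool) : Prop :=
  ∀ (T : GTree.{u}) (k : ℕ) (C : Set T.Pos) (hC : ∀ p ∈ C, T.par p ∈ C),
    ∃ φ : (STree T k C hC).Strat → T.Strat,
      (∀ (s s' : (STree T k C hC).Strat) (n : ℕ),
        (∀ q, (STree T k C hC).len q ≤ n → s.move q = s'.move q) →
        ∀ p, T.len p ≤ n → (φ s).move p = (φ s').move p) ∧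
      (∀ (s : (STree T k C hC).Strat) (q : (STree T k C hC).Pos), (STree T k C hC).len q < 2 * k →
        (φ s).move ((SHom T k C hC).f q) = (SHom T k C hC).f (s.move q)) ∧
      (∀ (s : (STree T k C hC).Strat) (x : T.Play), Follows b (φ s) x →
        ∃ y : (STree T k C hC).Play, (SHom T k C hC).play y = x ∧ Follows b s y)

def UnravelI_Stmt : Prop := Half_Stmt.{u} false
def UnravelII_Stmt : Prop := Half_Stmt.{u} true

theorem unravel_of_halves (h1 : UnravelI_Stmt.{u}) (h2 : UnravelII_Stmt.{u}) :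
    Unravel_Stmt.{u} := by
  intro T k C hC
  obtain ⟨φ1, l1, m1, n1⟩ := h1 T k C hC
  obtain ⟨φ2, l2, m2, n2⟩ := h2 T k C hC
  exact ⟨STree T k C hC,
    { π := SHom T k C hC
      low_surj := SHom_low_surj
      low_inj := SHom_low_inj
      φ := fun b => match b with | false => φ1 | true => φ2
      loc := fun b => match b with | false => l1 | true => l2
      low := fun b => match b with | false => m1 | true => m2
      lift := fun b => match b with | false => n1 | true => n2 },
    Dset T k C hC, Dset_spec⟩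

end Pool.Agent.Det
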