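import Pool.Agent.Det.Basic

/-!
# Two more facts: prefix closed sets and the avoiding strategy (Gale-Stewart)
-/

set_option autoImplicit false

namespace Pool.Agent.Det

universe u

namespace GTree

variable {T : GTree.{u}}

/-- a set of positions closed under parents is closed under prefixes. -/
theorem pre_mem {C : Set T.Pos} (hC : ∀ p ∈ C, T.par p ∈ C) {p : T.Pos} (hp : p ∈ C) (m : ℕ) :
    T.pre m p ∈ C := by
  unfold pre
  generalize T.len p - m = d
  induction d with
  | zero => exact hp
  | succ d ih => rw [Function.iterate_succ_apply']; exact hC _ ih

/-- Gale–Stewart for the open set of plays reaching `U`: one strategy of the opponent keeps every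
play that is at a non-winning position out of the winning positions for ever. -/
theorem win_or_avoid (b : Bool) (U : Set T.Pos) :
    ∃ s : T.Strat, ∀ x : T.Play, ∀ m, ¬ T.Win b U (x.pos m) → FollowsFrom m (!b) s x →
      ∀ n, m ≤ n → ¬ T.Win b U (x.pos n) := by
  classical
  refine ⟨⟨fun p => if h : ¬ T.Win b U p then (exists_not_win_child h).choose
    else (T.exists_child p).choose, ?_⟩, ?_⟩
  · intro p
    by_cases h : ¬ T.Win b U p
    · rw [dif_pos h]; exact (exists_not_win_child h).choose_spec.1
    · rw [dif_neg h]; exact (T.exists_child p).choose_spec
  · intro x m hm hf n hn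
    induction n, hn using Nat.le_induction with
    | base => exact hm
    | succ n hn ih =>
      by_cases ht : Turn b n
      · exact not_win_child ih (by rw [x.len_pos]; exact ht) (x.child n)
      · have ht' : Turn (!b) n := by
          unfold Turn at ht ⊢
          cases b <;> simp at ht ⊢ <;> omega
        rw [hf n hn ht']
        show ¬ T.Win b U (if h : ¬ T.Win b U (x.pos n) then (exists_not_win_child h).choose
          else _)
        rw [dif_pos ih]
        exact (exists_not_win_child ih).choose_spec.2

end GTree

end Pool.Agent.Det
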